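import Pool.Agent.LibSchM.M4

/-!
# The three term condition at the vertex, in terms of `w`
-/

open Set Filter Topology

namespace SchM

open SchK

section

variable {b : ℝ} (hb0 : 0 < b) (hb1 : b < 1)

/-- `q w_q / (w - w₀)` -/
noncomputable def etaf (b x : ℝ) : ℝ := (Ff b x - Real.tanh x ^ 2 * F1 b x) / Ff b x

/-- `w - w₀` -/
noncomputable def wW (b x : ℝ) : ℝ := wf b x - (4 - b ^ 2) / (3 * b)

include hb0 hb1 in
theorem wW_pos {x : ℝ} (hx : 0 < x) : 0 < wW b x := by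
  have hb2 : b ^ 2 < 1 := by nlinarith
  have hF := F_pos hb0 hb1 hx
  have ht := tanh_pos hx
  have h1 : 0 < 1 - b ^ 2 := by linarith
  have h4 : 0 < 4 - b ^ 2 := by linarith
  rw [wW, wf_sub hb0 hb1 hx]
  positivity

include hb0 hb1 in
theorem wf_pos {x : ℝ} (hx : 0 < x) : 0 < wf b x := by
  have h := wW_pos hb0 hb1 hx
  have hb2 : b ^ 2 < 1 := by nlinarith
  have h4 : 0 < 4 - b ^ 2 := by linarith
  have h5 : 0 < (4 - b ^ 2) / (3 * b) := by positivity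
  rw [wW] at h
  linarith

include hb0 hb1 in
theorem N_F {x : ℝ} (hx : 0 < x) : Nf b x = (1 - b ^ 2) * Real.tanh x ^ 2 *
    (Ff b x + (4 - b ^ 2) * Real.tanh x ^ 2) / (3 * Ff b x) := by
  have h := F_mul hb0 hb1 hx
  have hF := (F_pos hb0 hb1 hx).ne'
  rw [eq_div_iff (by positivity)]
  linear_combination h

include hb0 hb1 in
/-- `lam = (w - w₀) / w` -/
theorem lam_mul {x : ℝ} (hx : 0 < x) :
    lamg (Real.tanh x ^ 2) (1 - b ^ 2) (Nf b x) * wf b x = wW b x := by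
  have hF := F_pos hb0 hb1 hx
  have hb2 : b ^ 2 < 1 := by nlinarith
  have hw : wf b x = (4 - b ^ 2) / (3 * b) +
      (1 - b ^ 2) * (4 - b ^ 2) / (3 * b) * Real.tanh x ^ 2 / Ff b x := by
    linarith [wf_sub hb0 hb1 hx]
  have ht := tanh_pos hx
  have hN0 := N_pos hb0 hb1 hx
  have hden : 3 * (Real.tanh x ^ 2 + Nf b x) ≠ 0 := by positivity
  rw [wW, lamg, hw, div_mul_eq_mul_div, div_eq_iff hden, N_F hb0 hb1 hx]
  have hF' := hF.ne'
  have hb' := hb0.ne'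
  field_simp
  ring

include hb0 hb1 in
theorem eta_mul {x : ℝ} (hx : 0 < x) :
    nug (Real.tanh x ^ 2) (1 - b ^ 2) (Nf b x) * wf b x =
      (1 + Real.tanh x ^ 2) * (etaf b x * wW b x) := by
  have hF := F_pos hb0 hb1 hx
  have hlam := lam_mul hb0 hb1 hx
  have ht := tanh_pos hx
  have hq := (one_sub_sq_pos x).ne'
  have hF' := hF.ne'
  have hw : wf b x = (4 - b ^ 2) / (3 * b) +
      (1 - b ^ 2) * (4 - b ^ 2) / (3 * b) * Real.tanh x ^ 2 / Ff b x := by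
    linarith [wf_sub hb0 hb1 hx]
  have hwW : wW b x = (1 - b ^ 2) * (4 - b ^ 2) / (3 * b) * Real.tanh x ^ 2 / Ff b x := by
    rw [wW, wf_sub hb0 hb1 hx]
  have hY : Yf b x = (Ff b x + (4 - b ^ 2) * Real.tanh x ^ 2) / 3 := by
    rw [Ff]; ring
  have e1 : nug (Real.tanh x ^ 2) (1 - b ^ 2) (Nf b x) * wf b x =
      (1 + Real.tanh x ^ 2) * (Nf b x * wf b x - 3 * wW b x) / (2 * (1 - Real.tanh x ^ 2)) := by
    rw [nug, ← hlam]; ring
  have hq2 : 2 * (1 - Real.tanh x ^ 2) ≠ 0 := mul_ne_zero two_ne_zero hq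
  rw [e1, div_eq_iff hq2, etaf, F1, D1, Df, hY, N_F hb0 hb1 hx, hwW, hw]
  have hb' := hb0.ne'
  have ht' := ht.ne'
  generalize Ff b x = F at *
  generalize Real.tanh x = t at *
  have hq' : 1 - t ^ 2 ≠ 0 := hq
  field_simp
  ring

/-- `al`, `kb`, `p0` at the vertex -/
noncomputable def Dnf (b x C : ℝ) : ℝ := 1 - C ^ 2 + C ^ 2 * hf b x ^ 2

/-- `al` -/
noncomputable def alf (b x C : ℝ) : ℝ :=
  (1 + C * Real.tanh x) * (Real.tanh x + C * (1 - hf b x ^ 2)) / Dnf b x C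

/-- `kb` -/
noncomputable def kbf (b x C : ℝ) : ℝ := Real.tanh x - Nf b x * C * hf b x ^ 2 / Dnf b x C

/-- `p0` -/
noncomputable def p0f (b x C : ℝ) : ℝ :=
  C * (1 + C * Real.tanh x) * wW b x *
    (C ^ 2 * (1 - Real.tanh x ^ 2) + (1 - C ^ 2) * (1 - Real.tanh x ^ 4) * etaf b x) /
    (wf b x * (1 - C ^ 2 * Real.tanh x ^ 2) +
      (1 - C ^ 2) * (1 + Real.tanh x ^ 2) * (etaf b x * wW b x))

include hb0 hb1 in
theorem nu_gt {x : ℝ} (hx : 0 < x) :
    -1 < nug (Real.tanh x ^ 2) (1 - b ^ 2) (Nf b x) := by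
  -- `eta > 0` since `F₁ < 0`
  have h := eta_mul hb0 hb1 hx
  have hF := F_pos hb0 hb1 hx
  have hF1 := F1_neg hb0 hb1 hx
  have hw := wf_pos hb0 hb1 hx
  have hW := wW_pos hb0 hb1 hx
  have ht := tanh_pos hx
  have h1 : 0 < etaf b x := by
    rw [etaf]
    have : 0 < Ff b x - Real.tanh x ^ 2 * F1 b x := by
      have : 0 < Real.tanh x ^ 2 * (-F1 b x) := mul_pos (by positivity) (by linarith)
      linarith
    positivity
  have h2 : 0 < nug (Real.tanh x ^ 2) (1 - b ^ 2) (Nf b x) * wf b x := by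
    rw [h]; positivity
  have h3 := (pos_iff_pos_of_mul_pos h2).2 hw
  linarith

include hb0 hb1 in
/-- `p0 = mu (1 + C r) r` -/
theorem p0_eq {x : ℝ} (hx : 0 < x) {C : ℝ} (hC0 : 0 ≤ C) (hC1 : C ≤ 1) : p0f b x C =
    muQ (Real.tanh x) C (lamg (Real.tanh x ^ 2) (1 - b ^ 2) (Nf b x))
      (nug (Real.tanh x ^ 2) (1 - b ^ 2) (Nf b x)) * ((1 + C * Real.tanh x) * Real.tanh x) := by
  have hlam := lam_mul hb0 hb1 hx
  have heta := eta_mul hb0 hb1 hx
  have hnu := nu_gt hb0 hb1 hx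
  have hw := wf_pos hb0 hb1 hx
  have ht := tanh_pos hx
  have hq := one_sub_sq_pos x
  set l := lamg (Real.tanh x ^ 2) (1 - b ^ 2) (Nf b x) with hl
  set n := nug (Real.tanh x ^ 2) (1 - b ^ 2) (Nf b x) with hn
  have hC2 : 0 ≤ 1 - C ^ 2 := by nlinarith
  have hn1 : 0 < 1 + n := by linarith
  have hden : 0 < C ^ 2 * (1 - Real.tanh x ^ 2) + (1 - C ^ 2) * (1 + n) := by
    rcases hC2.lt_or_eq with h | h
    · have h1 : 0 ≤ C ^ 2 * (1 - Real.tanh x ^ 2) := by positivity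
      have h2 := mul_pos h hn1
      linarith
    · rw [← h]
      have : C ^ 2 = 1 := by linarith
      rw [this]
      linarith
  have hden2 : C ^ 2 + (1 - C ^ 2) * (1 + n) / (1 - Real.tanh x ^ 2) =
      (C ^ 2 * (1 - Real.tanh x ^ 2) + (1 - C ^ 2) * (1 + n)) / (1 - Real.tanh x ^ 2) := by
    field_simp
  have e4 : (1 : ℝ) - Real.tanh x ^ 4 = (1 - Real.tanh x ^ 2) * (1 + Real.tanh x ^ 2) := by ring
  have e5 : wf b x * (1 - C ^ 2 * Real.tanh x ^ 2) +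
      (1 - C ^ 2) * (1 + Real.tanh x ^ 2) * (etaf b x * wW b x) =
      wf b x * (C ^ 2 * (1 - Real.tanh x ^ 2) + (1 - C ^ 2) * (1 + n)) := by
    linear_combination (-(1 - C ^ 2)) * heta
  have e6 : wW b x * (C ^ 2 * (1 - Real.tanh x ^ 2) +
      (1 - C ^ 2) * (1 - Real.tanh x ^ 4) * etaf b x) =
      wf b x * (1 - Real.tanh x ^ 2) * (C ^ 2 * l + (1 - C ^ 2) * n) := by
    rw [e4]
    linear_combination (-(C ^ 2 * (1 - Real.tanh x ^ 2))) * hlam -
      (1 - C ^ 2) * (1 - Real.tanh x ^ 2) * heta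
  have e7 : p0f b x C = C * (1 + C * Real.tanh x) * (wW b x * (C ^ 2 * (1 - Real.tanh x ^ 2) +
      (1 - C ^ 2) * (1 - Real.tanh x ^ 4) * etaf b x)) /
      (wf b x * (1 - C ^ 2 * Real.tanh x ^ 2) +
      (1 - C ^ 2) * (1 + Real.tanh x ^ 2) * (etaf b x * wW b x)) := by
    rw [p0f]; ring
  rw [e7, e6, e5, muQ, hden2]
  have hw' := hw.ne'
  have ht' := ht.ne'
  have hq' := hq.ne'
  have hden' := hden.ne'
  field_simp

include hb0 hb1 in
/-- **`mu ≤ lam / r`** -/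
theorem mu_le {x : ℝ} (hx : 0 < x) {C : ℝ} (hC0 : 0 ≤ C) (hC1 : C ≤ 1) :
    muQ (Real.tanh x) C (lamg (Real.tanh x ^ 2) (1 - b ^ 2) (Nf b x))
      (nug (Real.tanh x ^ 2) (1 - b ^ 2) (Nf b x)) ≤
      lamg (Real.tanh x ^ 2) (1 - b ^ 2) (Nf b x) / Real.tanh x := by
  have hb2 : b ^ 2 < 1 := by nlinarith
  have ht := tanh_pos hx
  have ht1 := tanh_lt_one' x
  have hN0 := N_pos hb0 hb1 hx
  have hq1 : Real.tanh x ^ 2 < 1 := by nlinarith
  have hlam : 0 ≤ lamg (Real.tanh x ^ 2) (1 - b ^ 2) (Nf b x) := by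
    have h := den_pos hb0 hb1 hx
    rw [lamg]
    apply div_nonneg _ (by positivity)
    linarith
  refine muQ_le ht ht1 hC0 hC1 hlam (nu_gt hb0 hb1 hx) (fun h => ?_)
  refine m1_of (by positivity) hq1 (by linarith) (by nlinarith) ?_ ?_ h
  · exact (Nf_lt hb0 hx).le.trans ht1.le
  · have := N_ge2 hb0 hb1 hx
    have e1 : (1 - b ^ 2) * Real.tanh x ^ 2 * (35 - (8 + (1 - b ^ 2)) * Real.tanh x ^ 2) =
        (1 - b ^ 2) * Real.tanh x ^ 2 * (35 - (9 - b ^ 2) * Real.tanh x ^ 2) := by ring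
    have e2 : Nf b x * (105 - (45 + 10 * (1 - b ^ 2)) * Real.tanh x ^ 2) =
        Nf b x * (105 - (55 - 10 * b ^ 2) * Real.tanh x ^ 2) := by ring
    rw [e1, e2]
    exact this

include hb0 hb1 in
/-- **the three term condition at the vertex** -/
theorem vertex {x : ℝ} (hx : 0 < x) (hreg : 9 / 20 ≤ b ∨ x ≤ 9 / 4) {C : ℝ} (hC0 : 0 ≤ C)
    (hC1 : C ≤ 1) : 0 ≤ p0f b x C ∧ 0 < alf b x C ∧ 0 < kbf b x C ∧
      p0f b x C * (1 / alf b x C + 1 / kbf b x C + 1 / (2 * Real.tanh x)) ≤ 1 := by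
  have ht := tanh_pos hx
  have ht1 := tanh_lt_one' x
  have hN0 := N_pos hb0 hb1 hx
  have hNt := Nf_lt hb0 hx
  have hh0 : 0 < hf b x ^ 2 := pow_pos (hf_pos hb0 hx) 2
  have hh1 := hf_sq_le hb0 hb1.le hx
  have hq0 : 0 < Real.tanh x ^ 2 := by positivity
  have hC2 : C ^ 2 ≤ 1 := by nlinarith
  have hD : 0 < Dnf b x C := by
    have e : Dnf b x C = (1 - C ^ 2) * (1 - hf b x ^ 2) + hf b x ^ 2 := by rw [Dnf]; ring
    rw [e]
    have : 0 ≤ (1 - C ^ 2) * (1 - hf b x ^ 2) := mul_nonneg (by linarith) (by linarith)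
    linarith
  have hk : 0 < 1 - hf b x ^ 2 := by linarith
  have hal : 0 < alf b x C := by rw [alf]; positivity
  have hphi : C * hf b x ^ 2 ≤ Dnf b x C := by
    have e2 : Dnf b x C - C * hf b x ^ 2 =
        (1 - C) * (1 + C * (1 - hf b x ^ 2)) := by rw [Dnf]; ring
    have h3 : 0 ≤ (1 - C) * (1 + C * (1 - hf b x ^ 2)) := by
      have : 0 ≤ 1 - C := by linarith
      positivity
    linarith
  have hkb : 0 < kbf b x C := by
    have h1 : Nf b x * C * hf b x ^ 2 / Dnf b x C ≤ Nf b x := by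
      rw [div_le_iff₀ hD]
      have := mul_le_mul_of_nonneg_left hphi hN0.le
      linarith
    rw [kbf]; linarith
  have hW := wW_pos hb0 hb1 hx
  have hw := wf_pos hb0 hb1 hx
  have hF := F_pos hb0 hb1 hx
  have hF1 := F1_neg hb0 hb1 hx
  have heta : 0 < etaf b x := by
    rw [etaf]
    have : 0 < Ff b x - Real.tanh x ^ 2 * F1 b x := by
      have : 0 < Real.tanh x ^ 2 * (-F1 b x) := mul_pos (by positivity) (by linarith)
      linarith
    positivity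
  have h4 : 0 < 1 - Real.tanh x ^ 4 := by
    have e : (1 : ℝ) - Real.tanh x ^ 4 = (1 - Real.tanh x ^ 2) * (1 + Real.tanh x ^ 2) := by ring
    rw [e]
    have := one_sub_sq_pos x
    positivity
  have hp0 : 0 ≤ p0f b x C := by
    have h5 : 0 ≤ 1 - C ^ 2 := by linarith
    have h6 : 0 ≤ 1 - C ^ 2 * Real.tanh x ^ 2 := by nlinarith
    have h7 := one_sub_sq_pos x
    rw [p0f]
    positivity
  refine ⟨hp0, hal, hkb, ?_⟩
  -- the polynomial inequality
  have hV2 : Nf b x * (15 * Real.tanh x - 3 * Real.tanh x ^ 2 + 6 * Real.tanh x * Real.tanh x ^ 2 +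
      Real.tanh x ^ 2 * (1 - b ^ 2) * (3 - Real.tanh x)) ≤
      Real.tanh x ^ 2 * ((5 * Real.tanh x + Real.tanh x ^ 2) * (1 - b ^ 2) +
        6 * Real.tanh x ^ 2) := by
    rcases hreg with h | h
    · rcases le_total x (9 / 4) with h' | h'
      · exact v2_small hb0 hb1 hx h'
      · exact v2_big h hb1 h'
    · exact v2_small hb0 hb1 hx h
  have hlam : 0 ≤ lamg (Real.tanh x ^ 2) (1 - b ^ 2) (Nf b x) := by
    have h := den_pos hb0 hb1 hx
    rw [lamg]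
    apply div_nonneg _ (by positivity)
    linarith
  have hV := v1_C (h := hf b x) ht hN0.le hNt hC0 hC1 (by linarith) hh0
    (mu_le hb0 hb1 hx hC0 hC1) hlam (v1_of_v2 ht ht1 hN0.le hNt hV2)
  refine le_trans (le_of_eq ?_) hV
  rw [p0_eq hb0 hb1 hx hC0 hC1, mul_assoc]
  congr 1
  have hD' : 1 - C ^ 2 + C ^ 2 * hf b x ^ 2 = Dnf b x C := rfl
  rw [hD']
  have e1 : C * (1 - hf b x ^ 2) * (1 + C * Real.tanh x) + Real.tanh x * Dnf b x C =
      Real.tanh x + C * (1 - hf b x ^ 2) := by rw [Dnf]; ring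
  rw [e1]
  have hDne := hD.ne'
  have htne := ht.ne'
  have h8 : (1 + C * Real.tanh x) ≠ 0 := by positivity
  have h9 : Real.tanh x + C * (1 - hf b x ^ 2) ≠ 0 := by positivity
  have t1 : (1 + C * Real.tanh x) * Real.tanh x * (1 / alf b x C) =
      Real.tanh x * Dnf b x C / (Real.tanh x + C * (1 - hf b x ^ 2)) := by
    rw [alf]; field_simp
  have t2 : (1 + C * Real.tanh x) * Real.tanh x * (1 / kbf b x C) =
      (1 + C * Real.tanh x) /
        (1 - C * hf b x ^ 2 * Nf b x / (Real.tanh x * Dnf b x C)) := by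
    have e2 : 1 - C * hf b x ^ 2 * Nf b x / (Real.tanh x * Dnf b x C) =
        kbf b x C / Real.tanh x := by
      rw [kbf]; field_simp
    rw [e2]
    have h10 := hkb.ne'
    field_simp
  have t3 : (1 + C * Real.tanh x) * Real.tanh x * (1 / (2 * Real.tanh x)) =
      (1 + C * Real.tanh x) / 2 := by field_simp
  rw [mul_add, mul_add, t1, t2, t3]

end

end SchM
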