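import Mathlib

/-!
# The scalar network inequality: algebra

`c ^ 2 + s ^ 2 = 1`, `K1 = c ^ 2 + z ^ 2 s ^ 2 - 2 c s z h`, `K2 = s ^ 2 + z ^ 2 c ^ 2 + 2 c s z h`,
`K3 = c s (1 - z ^ 2) + z h (c ^ 2 - s ^ 2)`; normalised `e11 = 1 + (c ^ 2 - s ^ 2) r`,
`e22 = 1 - (c ^ 2 - s ^ 2) r`, `e12 = 2 c s r`;
`ra = K1 e11 + K3 e12`, `rb = K2 e22 + K3 e12`;
`2 ka = K3 + c s r (1 + z ^ 2) - z h g / r`, `2 kb = K3 + c s r (1 + z ^ 2) + z h g / r`.
-/

namespace SchM

/-- `K1` -/
def K1 (h c s z : ℝ) : ℝ := c ^ 2 + z ^ 2 * s ^ 2 - 2 * c * s * z * h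

/-- `K2` -/
def K2 (h c s z : ℝ) : ℝ := s ^ 2 + z ^ 2 * c ^ 2 + 2 * c * s * z * h

/-- `K3` -/
def K3 (h c s z : ℝ) : ℝ := c * s * (1 - z ^ 2) + z * h * (c ^ 2 - s ^ 2)

/-- `ra = K1 e11 + K3 e12` -/
def ra (r h c s z : ℝ) : ℝ :=
  K1 h c s z * (1 + (c ^ 2 - s ^ 2) * r) + K3 h c s z * (2 * c * s * r)

/-- `rb = K2 e22 + K3 e12` -/
def rb (r h c s z : ℝ) : ℝ :=
  K2 h c s z * (1 - (c ^ 2 - s ^ 2) * r) + K3 h c s z * (2 * c * s * r)

/-- twice `ka` -/
noncomputable def tka (r g h c s z : ℝ) : ℝ :=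
  K3 h c s z + c * s * r * (1 + z ^ 2) - z * h * (g / r)

/-- twice `kb` -/
noncomputable def tkb (r g h c s z : ℝ) : ℝ :=
  K3 h c s z + c * s * r * (1 + z ^ 2) + z * h * (g / r)

variable {r g h c s z : ℝ}

theorem K1_nonneg (h1 : h ^ 2 ≤ 1) : 0 ≤ K1 h c s z := by
  have e : K1 h c s z = (c - s * z * h) ^ 2 + (z * s) ^ 2 * (1 - h ^ 2) := by
    simp only [K1]; ring
  rw [e]
  have := mul_nonneg (sq_nonneg (z * s)) (sub_nonneg.2 h1)
  positivity

theorem K1_pos (hc : 0 < c) (h1 : h ^ 2 < 1) : 0 < K1 h c s z := by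
  have e : K1 h c s z = (c - s * z * h) ^ 2 + (z * s) ^ 2 * (1 - h ^ 2) := by
    simp only [K1]; ring
  rw [e]
  rcases eq_or_ne (z * s) 0 with h0 | h0
  · have h2 : c - s * z * h = c := by
      rw [mul_comm s z, h0]; ring
    rw [h2, h0]
    have : 0 < c ^ 2 := by positivity
    linarith
  · have h2 : 0 < (z * s) ^ 2 := by positivity
    have h3 := mul_pos h2 (sub_pos.2 h1)
    have h4 := sq_nonneg (c - s * z * h)
    linarith

theorem K2_nonneg (h1 : h ^ 2 ≤ 1) : 0 ≤ K2 h c s z := by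
  have e : K2 h c s z = (s + c * z * h) ^ 2 + (z * c) ^ 2 * (1 - h ^ 2) := by
    simp only [K2]; ring
  rw [e]
  have := mul_nonneg (sq_nonneg (z * c)) (sub_nonneg.2 h1)
  positivity

/-- the identity for the second row -/
theorem tkb_id (hcs : c ^ 2 + s ^ 2 = 1) :
    tkb r g h c s z * K2 h c s z - K3 h c s z * rb r h c s z =
      z * h * (r + g / r) * K2 h c s z + 2 * c * s * r * z ^ 2 * (1 - h ^ 2) := by
  simp only [tkb, rb, K2, K3]
  generalize g / r = G
  linear_combination (-c^2*h*r*s^2*z^3-c^3*r*s*z^4+c^4*h*r*z^3+c*r*s^3*z^2-c^2*h*r*s^2*z+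
    c^2*h*r*z^3+c^3*r*s*z^2+h*r*s^4*z+2*c*r*s*z^2-c*r*s^3+h*r*s^2*z) * hcs

/-- the identity for the first row -/
theorem tka_id (hcs : c ^ 2 + s ^ 2 = 1) :
    tka r g h c s z * K1 h c s z - K3 h c s z * ra r h c s z =
      2 * c * s * r * z ^ 2 * (1 - h ^ 2) - z * h * (r + g / r) * K1 h c s z := by
  simp only [tka, ra, K1, K3]
  generalize g / r = G
  linear_combination (-c*r*s^3*z^4+c^2*h*r*s^2*z^3-h*r*s^4*z^3+c*r*s^3*z^2+c^2*h*r*s^2*z+
    c^3*r*s*z^2-c^4*h*r*z-h*r*s^2*z^3+2*c*r*s*z^2-c^2*h*r*z-c^3*r*s) * hcs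

theorem cK3 (hcs : c ^ 2 + s ^ 2 = 1) :
    c * K3 h c s z = z * (h * c - z * s) + s * K1 h c s z := by
  simp only [K3, K1]
  linear_combination (c*h*z-s*z^2) * hcs

theorem ra_eq (hcs : c ^ 2 + s ^ 2 = 1) :
    ra r h c s z = 2 * r * c * (c - h * z * s) + (1 - r) * K1 h c s z := by
  simp only [ra, K3, K1]
  linear_combination (-r*s^2*z^2+c^2*r) * hcs

theorem hK1 : h * K1 h c s z = (h * c - z * s) * (c - h * z * s) + c * s * z * (1 - h ^ 2) := by
  simp only [K1]; ring

/-- for `z ≥ 0` the condition of the second row is trivial -/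
theorem tkb_ge (hcs : c ^ 2 + s ^ 2 = 1) (hc : 0 ≤ c) (hs : 0 ≤ s) (hr : 0 ≤ r) (hg : 0 ≤ g)
    (hh : 0 ≤ h) (h1 : h ^ 2 ≤ 1) (hz : 0 ≤ z) :
    K3 h c s z * rb r h c s z ≤ tkb r g h c s z * K2 h c s z := by
  have h2 := tkb_id (r := r) (g := g) (h := h) (z := z) hcs
  have h3 := K2_nonneg (c := c) (s := s) (z := z) h1
  have h4 : 0 ≤ g / r := div_nonneg hg hr
  have h5 : 0 ≤ z * h * (r + g / r) * K2 h c s z := by positivity
  have h6 : 0 ≤ 2 * c * s * r * z ^ 2 * (1 - h ^ 2) := mul_nonneg (by positivity) (by linarith)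
  linarith

/-- for `z ≤ 0` the condition of the first row is trivial -/
theorem tka_ge (hcs : c ^ 2 + s ^ 2 = 1) (hc : 0 ≤ c) (hs : 0 ≤ s) (hr : 0 ≤ r) (hg : 0 ≤ g)
    (hh : 0 ≤ h) (h1 : h ^ 2 ≤ 1) (hz : z ≤ 0) :
    K3 h c s z * ra r h c s z ≤ tka r g h c s z * K1 h c s z := by
  have h2 := tka_id (r := r) (g := g) (h := h) (z := z) hcs
  have h3 := K1_nonneg (c := c) (s := s) (z := z) h1
  have h4 : 0 ≤ g / r := div_nonneg hg hr
  have h5 : 0 ≤ (-z) * h * (r + g / r) * K1 h c s z := by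
    have : 0 ≤ -z := by linarith
    positivity
  have h6 : 0 ≤ 2 * c * s * r * z ^ 2 * (1 - h ^ 2) := mul_nonneg (by positivity) (by linarith)
  linarith

/-- the scalar inequality, exact form: with `N = (h c - z s) (c - h z s)` and `a = r - g / r` -/
theorem tka_iff (hcs : c ^ 2 + s ^ 2 = 1) (m : ℝ) :
    tka r g h c s z * K1 h c s z - m * (K3 h c s z * ra r h c s z) =
      (1 - m) * (K3 h c s z * ra r h c s z) + z * (r - g / r) * (h * K1 h c s z) -
        2 * r * z * ((h * c - z * s) * (c - h * z * s)) := by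
  have h2 := tka_id (r := r) (g := g) (h := h) (z := z) hcs
  have h3 := hK1 (h := h) (c := c) (s := s) (z := z)
  linear_combination h2 - 2 * r * z * h3

/-- `K3 ra` expanded: `c K3 ra = 2 r c z N + K1 (2 r c s P + (1 - r) c K3)` -/
theorem K3ra (hcs : c ^ 2 + s ^ 2 = 1) :
    c * (K3 h c s z * ra r h c s z) =
      2 * r * c * z * ((h * c - z * s) * (c - h * z * s)) +
        K1 h c s z * (2 * r * c * s * (c - h * z * s) + (1 - r) * (c * K3 h c s z)) := by
  have h2 := cK3 (h := h) (z := z) hcs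
  have h3 := ra_eq (r := r) (h := h) (z := z) hcs
  rw [h3]
  linear_combination (2 * r * c * (c - h * z * s)) * h2

/-- **the scalar inequality**: `m` is `1 - ω`, `a = r - g / r`, `t = s ^ 2 (1 - h ^ 2) / h ^ 2` -/
theorem main_ineq (hcs : c ^ 2 + s ^ 2 = 1) (hc : 0 < c) (hs : 0 ≤ s) (hr : 0 < r) (hr1 : r ≤ 1)
    (hh : 0 < h) (h1 : h ^ 2 < 1) (hz : 0 ≤ z) (hK3 : 0 ≤ K3 h c s z)
    {m a t : ℝ} (hm1 : m ≤ 1) (ha : a = r - g / r) (ha0 : 0 ≤ a)
    (ht : t = s ^ 2 * (1 - h ^ 2) / h ^ 2)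
    (hD : 2 * r * m ≤ a + 2 * r * (1 - m) * t ∨
      (2 * r * m - (a + 2 * r * (1 - m) * t)) ^ 2 ≤ 4 * (a * (2 * r * (1 - m) * t))) :
    m * (K3 h c s z * ra r h c s z) ≤ tka r g h c s z * K1 h c s z := by
  have hK1 := K1_pos (s := s) (z := z) hc h1
  have hid := tka_iff (r := r) (g := g) (h := h) (z := z) hcs m
  have hexp := K3ra (r := r) (h := h) (z := z) hcs
  have hhK := SchM.hK1 (h := h) (c := c) (s := s) (z := z)
  have hra := ra_eq (r := r) (h := h) (z := z) hcs
  have hcK := cK3 (h := h) (z := z) hcs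
  rw [← ha] at hid
  -- `P > 0`
  have hP : 0 < c - h * z * s := by
    by_contra hP
    have hP' : c ≤ h * z * s := by linarith
    -- then `h c - z s < 0` and `K1 = c P - z s (h c - z s)`
    have h2 : h * c < z * s := by nlinarith
    have h3 : 0 < z * s := by nlinarith
    have hz0 : 0 < z := by
      rcases hz.lt_or_eq with h | h
      · exact h
      · rw [← h] at h3; simp at h3
    have h4 : K3 h c s z = s * (c - h * z * s) + z * c * (h * c - z * s) := by
      simp only [K3]; ring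
    have h5 : s * (c - h * z * s) ≤ 0 := mul_nonpos_of_nonneg_of_nonpos hs (by linarith)
    have h6 : z * c * (h * c - z * s) < 0 := mul_neg_of_pos_of_neg (by positivity) (by linarith)
    linarith
  set P := c - h * z * s with hPdef
  set N := h * c - z * s with hNdef
  set K := K1 h c s z with hKdef
  set k := K3 h c s z with hkdef
  have hω : 0 ≤ 1 - m := by linarith
  rcases le_or_gt N 0 with hN | hN
  · -- trivial case
    have h2 : 0 ≤ ra r h c s z := by
      rw [hra]
      have : 0 ≤ 1 - r := by linarith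
      positivity
    have h3 : 2 * r * z * (N * P) ≤ 0 := by
      have : N * P ≤ 0 := mul_nonpos_of_nonpos_of_nonneg hN hP.le
      exact mul_nonpos_of_nonneg_of_nonpos (by positivity) this
    have h4 : 0 ≤ (1 - m) * (k * ra r h c s z) := by positivity
    have h5 : 0 ≤ z * a * (h * K) := by positivity
    linarith
  · -- main case
    have hNc : N ≤ h * c := by
      have : 0 ≤ z * s := by positivity
      linarith
    have h1' : 0 < 1 - h ^ 2 := by linarith
    -- lower bound for the left side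
    have hL : (1 - m) * (2 * r * z * (N * P) + 2 * r * s * P * K) ≤
        (1 - m) * (k * ra r h c s z) := by
      refine mul_le_mul_of_nonneg_left ?_ hω
      have h2 : 0 ≤ K * ((1 - r) * (c * k)) := by
        have : 0 ≤ 1 - r := by linarith
        positivity
      have h3 : c * (2 * r * z * (N * P) + 2 * r * s * P * K) ≤ c * (k * ra r h c s z) := by
        rw [hexp]; linarith
      exact le_of_mul_le_mul_left h3 hc
    -- `h K = N P + c s z (1 - h ^ 2)`
    have hKK : K = (N * P + c * s * z * (1 - h ^ 2)) / h := by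
      rw [eq_div_iff hh.ne']; linarith
    -- the second part
    have h3 : z * t * (N * P) ≤ s * P * (c * s * z * (1 - h ^ 2) / h) := by
      rw [ht]
      have e1 : z * (s ^ 2 * (1 - h ^ 2) / h ^ 2) * (N * P) =
          (z * s ^ 2 * (1 - h ^ 2) * P / h ^ 2) * N := by ring
      have e2 : s * P * (c * s * z * (1 - h ^ 2) / h) =
          (z * s ^ 2 * (1 - h ^ 2) * P / h ^ 2) * (h * c) := by
        field_simp
      rw [e1, e2]
      exact mul_le_mul_of_nonneg_left hNc (by positivity)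
    have h4 : (1 - m) * (2 * r * s * P * K) =
        2 * r * (1 - m) * (s * P * (N * P / h)) +
          2 * r * (1 - m) * (s * P * (c * s * z * (1 - h ^ 2) / h)) := by
      rw [hKK]; ring
    -- the goal after dividing
    have hgoal : 2 * r * m * (z * (N * P)) ≤
        z * a * (N * P) + 2 * r * (1 - m) * t * (z * (N * P)) +
          (z * a * (c * s * z * (1 - h ^ 2)) + 2 * r * (1 - m) * (s * P * (N * P / h))) := by
      -- arithmetic-geometric mean
      set A := z * a * (c * s * z * (1 - h ^ 2)) with hA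
      set B := 2 * r * (1 - m) * (s * P * (N * P / h)) with hB
      have hA0 : 0 ≤ A := by rw [hA]; positivity
      have hB0 : 0 ≤ B := by rw [hB]; positivity
      have ht0 : 0 ≤ t := by rw [ht]; positivity
      have hAB : a * (2 * r * (1 - m) * t) * (z * (N * P)) ^ 2 ≤ A * B := by
        have e1 : a * (2 * r * (1 - m) * t) * (z * (N * P)) ^ 2 =
            (2 * r * (1 - m) * a * z ^ 2 * s ^ 2 * (1 - h ^ 2) * P ^ 2 * N / h ^ 2) * N := by
          rw [ht]; ring
        have e2 : A * B =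
            (2 * r * (1 - m) * a * z ^ 2 * s ^ 2 * (1 - h ^ 2) * P ^ 2 * N / h ^ 2) *
              (h * c) := by
          rw [hA, hB]; field_simp
        rw [e1, e2]
        exact mul_le_mul_of_nonneg_left hNc (by positivity)
      rcases hD with hD | hD
      · have h5 : 2 * r * m * (z * (N * P)) ≤ (a + 2 * r * (1 - m) * t) * (z * (N * P)) :=
          mul_le_mul_of_nonneg_right hD (by positivity)
        linarith
      · -- `D X ≤ A + B` since `(D X) ^ 2 ≤ 4 A B`
        have h5 : ((2 * r * m - (a + 2 * r * (1 - m) * t)) * (z * (N * P))) ^ 2 ≤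
            (A + B) ^ 2 := by
          have h6 := mul_le_mul_of_nonneg_right hD (sq_nonneg (z * (N * P)))
          have h7 : (A - B) ^ 2 = (A + B) ^ 2 - 4 * (A * B) := by ring
          have h8 := sq_nonneg (A - B)
          rw [h7] at h8
          rw [mul_pow]
          have h9 : 4 * (a * (2 * r * (1 - m) * t)) * (z * (N * P)) ^ 2 =
              4 * (a * (2 * r * (1 - m) * t) * (z * (N * P)) ^ 2) := by ring
          rw [h9] at h6
          linarith
        have h6 := abs_le_of_sq_le_sq' h5 (by positivity)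
        linarith [h6.2]
    have h5 : 2 * r * (1 - m) * t * (z * (N * P)) ≤
        2 * r * (1 - m) * (s * P * (c * s * z * (1 - h ^ 2) / h)) := by
      have : 2 * r * (1 - m) * t * (z * (N * P)) = 2 * r * (1 - m) * (z * t * (N * P)) := by ring
      rw [this]
      exact mul_le_mul_of_nonneg_left h3 (by positivity)
    have h6 : z * a * (h * K) = z * a * (N * P) + z * a * (c * s * z * (1 - h ^ 2)) := by
      rw [hhK]; ring
    have h7 : (1 - m) * (2 * r * z * (N * P) + 2 * r * s * P * K) =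
        2 * r * (z * (N * P)) - 2 * r * m * (z * (N * P)) + (1 - m) * (2 * r * s * P * K) := by
      ring
    have h8 : 2 * r * z * (N * P) = 2 * r * (z * (N * P)) := by ring
    have h9 : z * a * (N * P) = a * (z * (N * P)) := by ring
    rw [h7, h4] at hL
    rw [h6, h8] at hid
    linarith

end SchM
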