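import Pool.Agent.LibSchK.K6

/-!
# The bound `1 - ω ≤ lam / r`
-/

open Set Filter Topology

namespace SchM

open SchK

/-- the third continued fraction bound for `tanh (b x)` -/
theorem theta_aux {b : ℝ} (hb0 : 0 < b) (hb1 : b < 1) {x : ℝ} (hx : 0 < x) :
    Real.cosh (b * x) * (b * Real.tanh x * (105 - (55 - 10 * b ^ 2) * Real.tanh x ^ 2)) ≤
      Real.sinh (b * x) * (105 - (90 - 45 * b ^ 2) * Real.tanh x ^ 2 +
        (1 - b ^ 2) * (9 - b ^ 2) * Real.tanh x ^ 4) := by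
  have hb2 : b ^ 2 < 1 := by nlinarith
  have hb20 : 0 < b ^ 2 := by positivity
  have hc : 0 < (1 - b ^ 2) * (9 - b ^ 2) := mul_pos (by linarith) (by linarith)
  have hc9 : (1 - b ^ 2) * (9 - b ^ 2) < 9 := by nlinarith
  refine tanh_ge (L := x + 1)
    (fun x => b * Real.tanh x * (105 - (55 - 10 * b ^ 2) * Real.tanh x ^ 2))
    (fun x => 105 - (90 - 45 * b ^ 2) * Real.tanh x ^ 2 +
        (1 - b ^ 2) * (9 - b ^ 2) * Real.tanh x ^ 4)
    (fun x => (b * (105 - 3 * (55 - 10 * b ^ 2) * Real.tanh x ^ 2)) * (1 - Real.tanh x ^ 2))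
    (fun x => (-2 * (90 - 45 * b ^ 2) * Real.tanh x +
      4 * ((1 - b ^ 2) * (9 - b ^ 2)) * Real.tanh x ^ 3) * (1 - Real.tanh x ^ 2))
    (fun y => hasDerivAt_poly (fun t => b * t * (105 - (55 - 10 * b ^ 2) * t ^ 2))
      (fun t => b * (105 - 3 * (55 - 10 * b ^ 2) * t ^ 2)) (fun t => ?_) y)
    (fun y => hasDerivAt_poly (fun t => 105 - (90 - 45 * b ^ 2) * t ^ 2 +
        (1 - b ^ 2) * (9 - b ^ 2) * t ^ 4)
      (fun t => -2 * (90 - 45 * b ^ 2) * t + 4 * ((1 - b ^ 2) * (9 - b ^ 2)) * t ^ 3)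
        (fun t => ?_) y)
    (by simp) (fun y hy => ?_) (fun y hy => ?_) (fun y hy => ?_) x ⟨hx, by linarith⟩
  · have h1 := ((hasDerivAt_id t).const_mul b).mul
      (((hasDerivAt_pow 2 t).const_mul (55 - 10 * b ^ 2)).const_sub 105)
    refine (h1.congr_deriv ?_)
    simp
    ring
  · have h1 := (((hasDerivAt_pow 2 t).const_mul (90 - 45 * b ^ 2)).const_sub 105).add
      ((hasDerivAt_pow 4 t).const_mul ((1 - b ^ 2) * (9 - b ^ 2)))
    refine (h1.congr_deriv ?_)
    simp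
    ring
  · have h1 := tanh_pos hy.1
    have h2 := tanh_lt_one' y
    have h3 : Real.tanh y ^ 2 < 1 := by nlinarith
    have h4 : 0 ≤ (1 - b ^ 2) * (9 - b ^ 2) * Real.tanh y ^ 4 := by positivity
    nlinarith [mul_pos hb20 (pow_pos h1 2)]
  · have h1 := tanh_pos hy.1
    have h2 := tanh_lt_one' y
    have h3 : Real.tanh y ^ 2 < 1 := by nlinarith
    have h4 : 0 ≤ b * (b * Real.tanh y * (105 - (55 - 10 * b ^ 2) * Real.tanh y ^ 2)) := by
      have : 0 ≤ 105 - (55 - 10 * b ^ 2) * Real.tanh y ^ 2 := by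
        nlinarith [mul_pos hb20 (pow_pos h1 2)]
      positivity
    have h5 : (-2 * (90 - 45 * b ^ 2) * Real.tanh y +
      4 * ((1 - b ^ 2) * (9 - b ^ 2)) * Real.tanh y ^ 3) * (1 - Real.tanh y ^ 2) ≤ 0 := by
      have h6 : -2 * (90 - 45 * b ^ 2) * Real.tanh y +
        4 * ((1 - b ^ 2) * (9 - b ^ 2)) * Real.tanh y ^ 3 =
        Real.tanh y * (-2 * (90 - 45 * b ^ 2) +
          4 * (((1 - b ^ 2) * (9 - b ^ 2)) * Real.tanh y ^ 2)) := by ring
      rw [h6]
      have h8 : ((1 - b ^ 2) * (9 - b ^ 2)) * Real.tanh y ^ 2 ≤ 9 := by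
        have := mul_le_mul hc9.le h3.le (sq_nonneg _) (by norm_num)
        linarith
      have h7 : -2 * (90 - 45 * b ^ 2) +
          4 * (((1 - b ^ 2) * (9 - b ^ 2)) * Real.tanh y ^ 2) ≤ 0 := by
        linarith
      exact mul_nonpos_of_nonpos_of_nonneg (mul_nonpos_of_nonneg_of_nonpos h1.le h7) (by linarith)
    linarith
  · have h1 := tanh_pos hy.1
    have e : b * ((105 - (90 - 45 * b ^ 2) * Real.tanh y ^ 2 +
        (1 - b ^ 2) * (9 - b ^ 2) * Real.tanh y ^ 4) ^ 2 -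
        (b * Real.tanh y * (105 - (55 - 10 * b ^ 2) * Real.tanh y ^ 2)) ^ 2) -
        ((b * (105 - 3 * (55 - 10 * b ^ 2) * Real.tanh y ^ 2)) * (1 - Real.tanh y ^ 2) *
          (105 - (90 - 45 * b ^ 2) * Real.tanh y ^ 2 +
        (1 - b ^ 2) * (9 - b ^ 2) * Real.tanh y ^ 4) -
        b * Real.tanh y * (105 - (55 - 10 * b ^ 2) * Real.tanh y ^ 2) *
          ((-2 * (90 - 45 * b ^ 2) * Real.tanh y +
      4 * ((1 - b ^ 2) * (9 - b ^ 2)) * Real.tanh y ^ 3) * (1 - Real.tanh y ^ 2))) =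
        b * (1 - b ^ 2) * (4 - b ^ 2) * (9 - b ^ 2) * (16 - b ^ 2) * Real.tanh y ^ 8 := by ring
    have h2 : 0 ≤ b * (1 - b ^ 2) * (4 - b ^ 2) * (9 - b ^ 2) * (16 - b ^ 2) *
        Real.tanh y ^ 8 := by
      have h3 : 0 ≤ 1 - b ^ 2 := by linarith
      have h4 : 0 ≤ 4 - b ^ 2 := by linarith
      have h5 : 0 ≤ 9 - b ^ 2 := by linarith
      have h6 : 0 ≤ 16 - b ^ 2 := by linarith
      positivity
    linarith

/-- improved lower bound for `N`, cleared of denominators -/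
theorem N_ge2 {b : ℝ} (hb0 : 0 < b) (hb1 : b < 1) {x : ℝ} (hx : 0 < x) :
    (1 - b ^ 2) * Real.tanh x ^ 2 * (35 - (9 - b ^ 2) * Real.tanh x ^ 2) ≤
      Nf b x * (105 - (55 - 10 * b ^ 2) * Real.tanh x ^ 2) := by
  have hs := sinh_pos' hb0 hx
  have h := theta_aux hb0 hb1 hx
  have h1 : b * Real.tanh x * (Real.cosh (b * x) / Real.sinh (b * x)) *
      (105 - (55 - 10 * b ^ 2) * Real.tanh x ^ 2) ≤ 105 - (90 - 45 * b ^ 2) * Real.tanh x ^ 2 +
        (1 - b ^ 2) * (9 - b ^ 2) * Real.tanh x ^ 4 := by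
    have e : b * Real.tanh x * (Real.cosh (b * x) / Real.sinh (b * x)) *
        (105 - (55 - 10 * b ^ 2) * Real.tanh x ^ 2) =
        Real.cosh (b * x) * (b * Real.tanh x * (105 - (55 - 10 * b ^ 2) * Real.tanh x ^ 2)) /
          Real.sinh (b * x) := by ring
    rw [e, div_le_iff₀ hs]
    linarith
  rw [Nf, sub_mul]
  linarith

/-- the polynomial inequality behind (M1) -/
theorem m1_poly {q B : ℝ} (hq0 : 0 ≤ q) (hq1 : q ≤ 1) (hB0 : 0 ≤ B) (hB1 : B ≤ 1) :
    (1 + q) * ((B ^ 2 + 23 * B + 120) * q ^ 2 - 490 * q + 490) *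
      (105 - (150 + 10 * B) * q + (45 + 3 * B) * q ^ 2) ≤
    7 * (3 - q) * (1 - q) * (35 - (15 + B) * q) * (105 - (45 + 10 * B) * q) := by
  have hp : 0 ≤ 1 - q := by linarith
  have e : 7 * (3 - q) * (1 - q) * (35 - (15 + B) * q) * (105 - (45 + 10 * B) * q) -
      (1 + q) * ((B ^ 2 + 23 * B + 120) * q ^ 2 - 490 * q + 490) *
      (105 - (150 + 10 * B) * q + (45 + 3 * B) * q ^ 2) =
      25725 * (1 - q) ^ 5 + (33075 - 4655 * B) * (q * (1 - q) ^ 4) +
      (105 * B ^ 2 - 5670 * B + 19950) * (q ^ 2 * (1 - q) ^ 3) +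
      (10 * B ^ 3 + 310 * B ^ 2 - 390 * B + 9600) * (q ^ 3 * (1 - q) ^ 2) +
      (27 * B ^ 3 + 641 * B ^ 2 + 3700 * B + 2400) * (q ^ 4 * (1 - q)) +
      (14 * B ^ 3 + 322 * B ^ 2 + 1680 * B) * q ^ 5 := by ring
  have h1 : 0 ≤ 33075 - 4655 * B := by linarith
  have h2 : 0 ≤ 105 * B ^ 2 - 5670 * B + 19950 := by nlinarith [sq_nonneg B]
  have h3 : 0 ≤ 10 * B ^ 3 + 310 * B ^ 2 - 390 * B + 9600 := by
    have : 0 ≤ 10 * B ^ 3 + 310 * B ^ 2 := by positivity
    linarith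
  have h4 : 0 ≤ 27 * B ^ 3 + 641 * B ^ 2 + 3700 * B + 2400 := by positivity
  have h5 : 0 ≤ 14 * B ^ 3 + 322 * B ^ 2 + 1680 * B := by positivity
  rw [← sub_nonneg, e]
  positivity

/-- `lam = (w - w₀) / w` in terms of `g = N` -/
noncomputable def lamg (q B g : ℝ) : ℝ := (3 * g - q * B) / (3 * (q + g))

/-- `nu = W₁ / w` in terms of `g = N` -/
noncomputable def nug (q B g : ℝ) : ℝ := (1 + q) * (g - 3 * lamg q B g) / (2 * (1 - q))

/-- (M1) from the lower bound of `g` -/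
theorem m1_of {q B g : ℝ} (hq0 : 0 < q) (hq1 : q < 1) (hB0 : 0 < B) (hB1 : B ≤ 1) (hg1 : g ≤ 1)
    (hg : B * q * (35 - (8 + B) * q) ≤ g * (105 - (45 + 10 * B) * q))
    (hnu : 0 ≤ nug q B g) :
    2 * nug q B g * (1 - q) ≤ lamg q B g * (3 - q + 2 * nug q B g) := by
  have hD : 0 < 105 - (45 + 10 * B) * q := by nlinarith
  set g2 := B * q * (35 - (8 + B) * q) / (105 - (45 + 10 * B) * q) with hg2
  have hgg : g2 ≤ g := by rw [hg2, div_le_iff₀ hD]; exact hg
  have h8 : 0 < 35 - (8 + B) * q := by nlinarith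
  have hg20 : 0 < g2 := by rw [hg2]; positivity
  have hg0 : 0 < g := hg20.trans_le hgg
  have hp : 0 < 1 - q := by linarith
  have hqg : 0 < q + g := by linarith
  have hqg2 : 0 < q + g2 := by linarith
  have hlam : lamg q B g * (3 * (q + g)) = 3 * g - q * B := by
    rw [lamg, div_mul_cancel₀ _ (by positivity)]
  have hnu2 : 2 * nug q B g * (1 - q) = (1 + q) * (g - 3 * lamg q B g) := by
    rw [nug]; field_simp
  have hE : (g - 3 * lamg q B g) * (q + g) = g ^ 2 - (3 - q) * g + B * q := by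
    linear_combination (-1) * hlam
  have hE0 : 0 ≤ g ^ 2 - (3 - q) * g + B * q := by
    rw [← hE]
    have h1 : 0 ≤ 2 * nug q B g * (1 - q) := by positivity
    rw [hnu2] at h1
    have h2 : 0 ≤ g - 3 * lamg q B g := nonneg_of_mul_nonneg_right h1 (by linarith)
    positivity
  have hDne : 105 - (45 + 10 * B) * q ≠ 0 := hD.ne'
  have hmul : g2 * (105 - (45 + 10 * B) * q) = B * q * (35 - (8 + B) * q) := by
    rw [hg2, div_mul_cancel₀ _ hDne]
  -- values at `g2`
  have e1 : 3 * g2 - q * B = 7 * B * (3 + B) * q ^ 2 / (105 - (45 + 10 * B) * q) := by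
    rw [eq_div_iff hDne]; linear_combination 3 * hmul
  have e2 : q + g2 = q * (3 + B) * (35 - (15 + B) * q) / (105 - (45 + 10 * B) * q) := by
    rw [eq_div_iff hDne]; linear_combination hmul
  have e3 : g2 ^ 2 - (3 - q) * g2 + B * q =
      B * q ^ 2 * (3 + B) * ((B ^ 2 + 23 * B + 120) * q ^ 2 - 490 * q + 490) /
        (105 - (45 + 10 * B) * q) ^ 2 := by
    rw [eq_div_iff (pow_ne_zero 2 hDne)]
    linear_combination (g2 * (105 - (45 + 10 * B) * q) + B * q * (35 - (8 + B) * q) -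
      (3 - q) * (105 - (45 + 10 * B) * q)) * hmul
  have e4 : 3 * (1 - q) - 3 * g2 + B =
      (3 + B) * (105 - (150 + 10 * B) * q + (45 + 3 * B) * q ^ 2) /
        (105 - (45 + 10 * B) * q) := by
    rw [eq_div_iff hDne]; linear_combination (-3) * hmul
  have hA2 : 0 ≤ 3 * g2 - q * B := by rw [e1]; positivity
  have hA : 3 * g2 - q * B ≤ 3 * g - q * B := by linarith
  -- the inequality at `g2`
  have key2 : (1 + q) * (g2 ^ 2 - (3 - q) * g2 + B * q) * (q * (3 * (1 - q) - 3 * g2 + B)) ≤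
      (3 * g2 - q * B) * (3 - q) * (1 - q) * (q + g2) := by
    rw [e1, e2, e3, e4]
    have hpoly := m1_poly hq0.le hq1.le hB0.le hB1
    have h1 : (1 + q) * (B * q ^ 2 * (3 + B) * ((B ^ 2 + 23 * B + 120) * q ^ 2 - 490 * q + 490) /
        (105 - (45 + 10 * B) * q) ^ 2) *
        (q * ((3 + B) * (105 - (150 + 10 * B) * q + (45 + 3 * B) * q ^ 2) /
        (105 - (45 + 10 * B) * q))) =
        B * q ^ 3 * (3 + B) ^ 2 / (105 - (45 + 10 * B) * q) ^ 3 *
        ((1 + q) * ((B ^ 2 + 23 * B + 120) * q ^ 2 - 490 * q + 490) *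
      (105 - (150 + 10 * B) * q + (45 + 3 * B) * q ^ 2)) := by
      field_simp
    have h2 : 7 * B * (3 + B) * q ^ 2 / (105 - (45 + 10 * B) * q) * (3 - q) * (1 - q) *
        (q * (3 + B) * (35 - (15 + B) * q) / (105 - (45 + 10 * B) * q)) =
        B * q ^ 3 * (3 + B) ^ 2 / (105 - (45 + 10 * B) * q) ^ 3 *
        (7 * (3 - q) * (1 - q) * (35 - (15 + B) * q) * (105 - (45 + 10 * B) * q)) := by
      field_simp
    rw [h1, h2]
    exact mul_le_mul_of_nonneg_left hpoly (by positivity)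
  -- monotonicity
  have hEmono : g ^ 2 - (3 - q) * g + B * q ≤ g2 ^ 2 - (3 - q) * g2 + B * q := by
    nlinarith [mul_nonneg (sub_nonneg.2 hgg) (by linarith : (0:ℝ) ≤ 3 - q - g - g2)]
  have key : (1 + q) * (g ^ 2 - (3 - q) * g + B * q) * (q * (3 * (1 - q) - 3 * g + B)) ≤
      (3 * g - q * B) * (3 - q) * (1 - q) * (q + g) := by
    have hR : (3 * g2 - q * B) * (3 - q) * (1 - q) * (q + g2) ≤
        (3 * g - q * B) * (3 - q) * (1 - q) * (q + g) := by
      have h3 : 0 ≤ 3 - q := by linarith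
      have h4 : (3 * g2 - q * B) * (q + g2) ≤ (3 * g - q * B) * (q + g) :=
        mul_le_mul hA (by linarith) hqg2.le (hA2.trans hA)
      have h5 := mul_le_mul_of_nonneg_left h4 (mul_nonneg h3 hp.le)
      linarith
    rcases le_or_gt (3 * (1 - q) - 3 * g + B) 0 with h | h
    · have h1 : (1 + q) * (g ^ 2 - (3 - q) * g + B * q) * (q * (3 * (1 - q) - 3 * g + B)) ≤ 0 :=
        mul_nonpos_of_nonneg_of_nonpos (mul_nonneg (by linarith) hE0)
          (mul_nonpos_of_nonneg_of_nonpos hq0.le h)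
      have h2 : 0 ≤ (3 * g - q * B) * (3 - q) * (1 - q) * (q + g) := by
        have h3 : 0 ≤ 3 - q := by linarith
        have h4 : 0 ≤ 3 * g - q * B := hA2.trans hA
        positivity
      linarith
    · refine le_trans ?_ (key2.trans hR)
      refine mul_le_mul (mul_le_mul_of_nonneg_left hEmono (by linarith))
        (mul_le_mul_of_nonneg_left (by linarith) hq0.le) (by positivity) ?_
      exact mul_nonneg (by linarith) (hE0.trans hEmono)
  -- back to `lam`, `nu`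
  have h1 : 2 * nug q B g * (1 - q) * (1 - q) ≤
      lamg q B g * (3 - q + 2 * nug q B g) * (1 - q) := by
    have e5 : lamg q B g * (3 - q + 2 * nug q B g) * (1 - q) =
        lamg q B g * (3 - q) * (1 - q) + lamg q B g * (2 * nug q B g * (1 - q)) := by ring
    rw [e5, hnu2]
    have h3 : 0 < 3 * (q + g) ^ 2 := by positivity
    refine le_of_mul_le_mul_right ?_ h3
    have e6 : (1 + q) * (g - 3 * lamg q B g) * (1 - q) * (3 * (q + g) ^ 2) =
        3 * (1 + q) * ((g - 3 * lamg q B g) * (q + g)) * (1 - q) * (q + g) := by ring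
    have e7 : (lamg q B g * (3 - q) * (1 - q) +
        lamg q B g * ((1 + q) * (g - 3 * lamg q B g))) * (3 * (q + g) ^ 2) =
        (lamg q B g * (3 * (q + g))) * (3 - q) * (1 - q) * (q + g) +
        (lamg q B g * (3 * (q + g))) * (1 + q) * ((g - 3 * lamg q B g) * (q + g)) := by ring
    rw [e6, e7, hE, hlam]
    have e8 : 3 * (1 + q) * (g ^ 2 - (3 - q) * g + B * q) * (1 - q) * (q + g) =
        (1 + q) * (g ^ 2 - (3 - q) * g + B * q) * (q * (3 * (1 - q) - 3 * g + B)) +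
        (3 * g - q * B) * (1 + q) * (g ^ 2 - (3 - q) * g + B * q) := by ring
    rw [e8]
    linarith
  exact le_of_mul_le_mul_right h1 hp

/-- the quotient `1 - ω` -/
noncomputable def muQ (r C lam nu : ℝ) : ℝ :=
  C / r * (C ^ 2 * lam + (1 - C ^ 2) * nu) / (C ^ 2 + (1 - C ^ 2) * (1 + nu) / (1 - r ^ 2))

theorem muQ_le {r C lam nu : ℝ} (hr : 0 < r) (hr1 : r < 1) (hC0 : 0 ≤ C) (hC1 : C ≤ 1)
    (hl : 0 ≤ lam) (hn : -1 < nu)
    (hM : 0 ≤ nu → 2 * nu * (1 - r ^ 2) ≤ lam * (3 - r ^ 2 + 2 * nu)) :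
    muQ r C lam nu ≤ lam / r := by
  have hp : 0 < 1 - r ^ 2 := by nlinarith
  have hC2 : 0 ≤ 1 - C ^ 2 := by nlinarith
  have hn1 : 0 < 1 + nu := by linarith
  have hden : 0 < C ^ 2 + (1 - C ^ 2) * (1 + nu) / (1 - r ^ 2) := by
    rcases hC0.lt_or_eq with h | h
    · have : 0 ≤ (1 - C ^ 2) * (1 + nu) / (1 - r ^ 2) := by positivity
      positivity
    · rw [← h]
      have : 0 < (1 + nu) / (1 - r ^ 2) := by positivity
      simpa using this
  rw [muQ, div_le_iff₀ hden]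
  have e : lam / r * (C ^ 2 + (1 - C ^ 2) * (1 + nu) / (1 - r ^ 2)) -
      C / r * (C ^ 2 * lam + (1 - C ^ 2) * nu) =
      (1 - C) / r * (lam * C ^ 2 + (1 + C) * (lam * (1 + nu) / (1 - r ^ 2) - C * nu)) := by
    ring
  have hM' : 0 ≤ lam * (1 + nu) / (1 - r ^ 2) := by positivity
  have hle : lam ≤ lam * (1 + nu) / (1 - r ^ 2) ∨ nu < 0 := by
    rcases lt_or_ge nu 0 with h | h
    · exact Or.inr h
    · left
      rw [le_div_iff₀ hp]
      nlinarith [mul_nonneg hl h, mul_nonneg hl (sq_nonneg r)]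
  have key : 0 ≤ lam * C ^ 2 + (1 + C) * (lam * (1 + nu) / (1 - r ^ 2) - C * nu) := by
    rcases lt_or_ge nu 0 with h | h
    · have h1 : 0 ≤ -(C * nu) := by nlinarith
      have h2 : 0 ≤ lam * (1 + nu) / (1 - r ^ 2) - C * nu := by linarith
      positivity
    · have h0 : lam ≤ lam * (1 + nu) / (1 - r ^ 2) := by
        rcases hle with h' | h'
        · exact h'
        · linarith
      have hMM := hM h
      have hend : 0 ≤ lam + 2 * (lam * (1 + nu) / (1 - r ^ 2) - nu) := by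
        have e2 : lam + 2 * (lam * (1 + nu) / (1 - r ^ 2) - nu) =
            (lam * (3 - r ^ 2 + 2 * nu) - 2 * nu * (1 - r ^ 2)) / (1 - r ^ 2) := by
          field_simp; ring
        rw [e2]
        exact div_nonneg (by linarith) hp.le
      set M := lam * (1 + nu) / (1 - r ^ 2) with hMdef
      rcases le_or_gt lam nu with hln | hln
      · have e3 : lam * C ^ 2 + (1 + C) * (M - C * nu) =
            (1 - C) * M + C * (lam + 2 * (M - nu)) + (nu - lam) * (C * (1 - C)) := by ring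
        rw [e3]
        have h1 : 0 ≤ 1 - C := by linarith
        have h2 : 0 ≤ nu - lam := by linarith
        positivity
      · have h1 : 0 ≤ M - C * nu := by nlinarith
        positivity
  have h1 : 0 ≤ (1 - C) / r := div_nonneg (by linarith) hr.le
  have h2 := mul_nonneg h1 key
  rw [← e] at h2
  linarith

end SchM
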