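import Pool.Agent.LibSchK.K6

/-!
# One variable facts
-/

open Set Filter Topology

namespace SchM

open SchK

/-- a differentiable function with nonnegative derivative on `(0, ∞)`, vanishing at `0` -/
theorem nonneg_of_deriv {f f' : ℝ → ℝ} (hf : ∀ x, HasDerivAt f (f' x) x) (h0 : f 0 = 0)
    (hpos : ∀ x, 0 < x → 0 ≤ f' x) : ∀ x, 0 ≤ x → 0 ≤ f x := by
  intro x hx
  have hm : MonotoneOn f (Ici 0) := by
    refine monotoneOn_of_deriv_nonneg (convex_Ici 0)
      (fun z _ => (hf z).continuousAt.continuousWithinAt)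
      (fun z _ => (hf z).differentiableAt.differentiableWithinAt) (fun z hz => ?_)
    rw [interior_Ici] at hz
    rw [(hf z).deriv]
    exact hpos z hz
  have := hm (mem_Ici.2 le_rfl) (mem_Ici.2 hx) hx
  rwa [h0] at this

/-- `sinh x ≤ x cosh x` -/
theorem sinh_le_mul_cosh {x : ℝ} (hx : 0 ≤ x) : Real.sinh x ≤ x * Real.cosh x := by
  have h : ∀ x, HasDerivAt (fun x => x * Real.cosh x - Real.sinh x) (x * Real.sinh x) x := by
    intro x
    have h1 := ((hasDerivAt_id x).mul (Real.hasDerivAt_cosh x)).sub (Real.hasDerivAt_sinh x)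
    refine h1.congr_deriv ?_
    simp
  have := nonneg_of_deriv h (by simp) (fun x hx => mul_nonneg hx.le (Real.sinh_nonneg_iff.2 hx.le))
    x hx
  linarith

/-- `x ≤ sinh x` -/
theorem le_sinh {x : ℝ} (hx : 0 ≤ x) : x ≤ Real.sinh x := by
  have h : ∀ x, HasDerivAt (fun x => Real.sinh x - x) (Real.cosh x - 1) x := fun x =>
    (Real.hasDerivAt_sinh x).sub (hasDerivAt_id x)
  have := nonneg_of_deriv h (by simp) (fun x _ => by linarith [Real.one_le_cosh x]) x hx
  linarith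

/-- the third Padé lower bound for `tanh` -/
theorem pade {x : ℝ} (hx : 0 ≤ x) : Real.cosh x * (x * (105 + 10 * x ^ 2)) ≤
    Real.sinh x * (105 + 45 * x ^ 2 + x ^ 4) := by
  have hs := Real.hasDerivAt_sinh
  have hc := Real.hasDerivAt_cosh
  have p2 : ∀ x : ℝ, HasDerivAt (fun x : ℝ => x ^ 2) (2 * x) x := fun x => by
    simpa using hasDerivAt_pow 2 x
  have p3 : ∀ x : ℝ, HasDerivAt (fun x : ℝ => x ^ 3) (3 * x ^ 2) x := fun x => by
    simpa using hasDerivAt_pow 3 x
  have p4 : ∀ x : ℝ, HasDerivAt (fun x : ℝ => x ^ 4) (4 * x ^ 3) x := fun x => by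
    simpa using hasDerivAt_pow 4 x
  -- third level
  have f3 : ∀ x : ℝ, 0 ≤ x → 0 ≤ x * Real.cosh x - Real.sinh x := fun x hx => by
    linarith [sinh_le_mul_cosh hx]
  -- second level
  have f2 : ∀ x : ℝ, 0 ≤ x → 0 ≤ Real.sinh x * (3 + x ^ 2) - 3 * (x * Real.cosh x) := by
    refine nonneg_of_deriv (f' := fun x => x * (x * Real.cosh x - Real.sinh x))
      (fun x => ?_) (by simp) (fun x hx => mul_nonneg hx.le (f3 x hx.le))
    have h1 := ((hs x).mul ((p2 x).const_add 3)).sub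
      (((hasDerivAt_id x).mul (hc x)).const_mul 3)
    refine h1.congr_deriv ?_
    simp
    ring
  -- first level
  have f1 : ∀ x : ℝ, 0 ≤ x → 0 ≤ Real.cosh x * (15 * x + x ^ 3) - Real.sinh x * (15 + 6 * x ^ 2) := by
    refine nonneg_of_deriv (f' := fun x => x * (Real.sinh x * (3 + x ^ 2) - 3 * (x * Real.cosh x)))
      (fun x => ?_) (by simp) (fun x hx => mul_nonneg hx.le (f2 x hx.le))
    have h1 := ((hc x).mul (((hasDerivAt_id x).const_mul 15).add (p3 x))).sub
      ((hs x).mul (((p2 x).const_mul 6).const_add 15))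
    refine h1.congr_deriv ?_
    simp
    ring
  have f0 : ∀ x : ℝ, 0 ≤ x → 0 ≤ Real.sinh x * (105 + 45 * x ^ 2 + x ^ 4) -
      Real.cosh x * (105 * x + 10 * x ^ 3) := by
    refine nonneg_of_deriv (f' := fun x => x * (Real.cosh x * (15 * x + x ^ 3) -
      Real.sinh x * (15 + 6 * x ^ 2))) (fun x => ?_) (by simp)
      (fun x hx => mul_nonneg hx.le (f1 x hx.le))
    have h1 := ((hs x).mul ((((p2 x).const_mul 45).const_add 105).add (p4 x))).sub
      ((hc x).mul (((hasDerivAt_id x).const_mul 105).add ((p3 x).const_mul 10)))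
    refine h1.congr_deriv ?_
    simp
    ring
  have h := f0 x hx
  have e : Real.cosh x * (x * (105 + 10 * x ^ 2)) = Real.cosh x * (105 * x + 10 * x ^ 3) := by ring
  rw [e]
  linarith

theorem pade_tanh {x : ℝ} (hx : 0 ≤ x) :
    x * (105 + 10 * x ^ 2) / (105 + 45 * x ^ 2 + x ^ 4) ≤ Real.tanh x := by
  have h := pade hx
  have hc := Real.cosh_pos x
  rw [Real.tanh_eq_sinh_div_cosh, div_le_div_iff₀ (by positivity) hc]
  linarith

theorem tanh_le_self {x : ℝ} (hx : 0 ≤ x) : Real.tanh x ≤ x := by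
  rw [Real.tanh_eq_sinh_div_cosh, div_le_iff₀ (Real.cosh_pos x)]
  exact sinh_le_mul_cosh hx

/-- `tanh x + tanh x ^ 3 / 3 ≤ x` -/
theorem tanh_cube {x : ℝ} (hx : 0 ≤ x) : Real.tanh x + Real.tanh x ^ 3 / 3 ≤ x := by
  have h : ∀ x, HasDerivAt (fun x => x - (Real.tanh x + Real.tanh x ^ 3 / 3))
      (Real.tanh x ^ 4) x := by
    intro x
    have h1 := (hasDerivAt_id x).sub (hasDerivAt_poly (fun t => t + t ^ 3 / 3)
      (fun t => 1 + t ^ 2) (fun t => by
        have := (hasDerivAt_id t).add ((hasDerivAt_pow 3 t).div_const 3)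
        refine this.congr_deriv ?_
        simp) x)
    refine h1.congr_deriv ?_
    ring
  have := nonneg_of_deriv h (by simp) (fun x _ => by positivity) x hx
  linarith

/-- `g₀ = 1 - tanh x / x` -/
noncomputable def g0 (x : ℝ) : ℝ := 1 - Real.tanh x / x

theorem g0_nonneg {x : ℝ} (hx : 0 < x) : 0 ≤ g0 x := by
  have h := tanh_le_self hx.le
  rw [g0, sub_nonneg, div_le_one hx]
  exact h

theorem g0_lt_one {x : ℝ} (hx : 0 < x) : g0 x < 1 := by
  have h := div_pos (tanh_pos hx) hx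
  rw [g0]; linarith

/-- `(1 - tanh x ^ 2) x ≤ tanh x` -/
theorem one_sub_mul_le {x : ℝ} (hx : 0 ≤ x) : (1 - Real.tanh x ^ 2) * x ≤ Real.tanh x := by
  have hc := Real.cosh_pos x
  have h1 := le_sinh hx
  have h2 := Real.one_le_cosh x
  have h3 : 0 ≤ Real.sinh x := Real.sinh_nonneg_iff.2 hx
  rw [one_sub_tanh, Real.tanh_eq_sinh_div_cosh, div_mul_eq_mul_div, one_mul,
    div_le_div_iff₀ (by positivity) hc]
  have h4 : x * Real.cosh x ≤ Real.sinh x * Real.cosh x * Real.cosh x := by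
    have h5 : x * Real.cosh x ≤ Real.sinh x * Real.cosh x := mul_le_mul_of_nonneg_right h1 hc.le
    have h6 : 0 ≤ Real.sinh x * Real.cosh x := by positivity
    nlinarith
  calc x * Real.cosh x ≤ Real.sinh x * Real.cosh x * Real.cosh x := h4
    _ = Real.sinh x * Real.cosh x ^ 2 := by ring

theorem g0_le {x : ℝ} (hx : 0 < x) : g0 x ≤ Real.tanh x ^ 2 := by
  have h := one_sub_mul_le hx.le
  have h2 : 1 - Real.tanh x ^ 2 ≤ Real.tanh x / x := by rwa [le_div_iff₀ hx]
  rw [g0]; linarith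

section

variable {b : ℝ} (hb0 : 0 < b) (hb1 : b < 1)

/-- `T = b coth (b x)` -/
noncomputable def Tf (b x : ℝ) : ℝ := b * (Real.cosh (b * x) / Real.sinh (b * x))

theorem Nf_eq (b x : ℝ) : Nf b x = 1 - Real.tanh x * Tf b x := by
  rw [Nf, Tf]; ring

include hb0 in
theorem inv_le_T {x : ℝ} (hx : 0 < x) : 1 / x ≤ Tf b x := by
  have hy : 0 < b * x := mul_pos hb0 hx
  have hs := Real.sinh_pos_iff.2 hy
  have h := sinh_le_mul_cosh hy.le
  rw [Tf, mul_div_assoc', div_le_div_iff₀ hx hs]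
  nlinarith

include hb0 in
theorem Nf_le_g0 {x : ℝ} (hx : 0 < x) : Nf b x ≤ g0 x := by
  have h := inv_le_T hb0 hx
  have ht := tanh_pos hx
  rw [Nf_eq, g0]
  have := mul_le_mul_of_nonneg_left h ht.le
  have e : Real.tanh x * (1 / x) = Real.tanh x / x := by ring
  rw [e] at this
  linarith

theorem hasDerivAt_g0 {x : ℝ} (hx : 0 < x) : HasDerivAt g0
    ((Real.tanh x ^ 2 - (1 + Real.tanh x ^ 2) * g0 x + g0 x ^ 2) / Real.tanh x) x := by
  have h1 := ((hasDerivAt_tanh x).div (hasDerivAt_id x) hx.ne').const_sub 1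
  have ht := (tanh_pos hx).ne'
  refine h1.congr_deriv ?_
  rw [g0]
  simp only [id]
  field_simp
  ring

include hb0 hb1 in
/-- **`N ≤ (1 - b²) (1 - tanh x / x)`** -/
theorem Nf_le {x : ℝ} (hx : 0 < x) : Nf b x ≤ (1 - b ^ 2) * g0 x := by
  have hb2 : b ^ 2 < 1 := by nlinarith
  have hB0 : 0 < 1 - b ^ 2 := by linarith
  have hB1 : 1 - b ^ 2 ≤ 1 := by nlinarith
  refine sub_nonneg.1 (max_pr (L := x + 1) (g := fun y => (1 - b ^ 2) * g0 y - Nf b y)
    (fun y hy => ((hasDerivAt_g0 hy.1).const_mul _).sub (hasDerivAt_N hb0 hy.1))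
    (fun y hy hneg => ?_) ?_ x ⟨hx, by linarith⟩)
  · have hy0 := hy.1
    have ht := tanh_pos hy0
    have hN := Nf_le_g0 hb0 hy0
    have hq := g0_le hy0
    have hg1 := g0_lt_one hy0
    have hg0 := g0_nonneg hy0
    have e : (1 - b ^ 2) * ((Real.tanh y ^ 2 - (1 + Real.tanh y ^ 2) * g0 y + g0 y ^ 2) /
        Real.tanh y) - (-Nf b y + (1 - b ^ 2) * Real.tanh y ^ 2 + Nf b y ^ 2 -
          Real.tanh y ^ 2 * Nf b y) / Real.tanh y =
        ((Nf b y - (1 - b ^ 2) * g0 y) * (1 + Real.tanh y ^ 2 - Nf b y - (1 - b ^ 2) * g0 y) +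
          (1 - b ^ 2) * (1 - (1 - b ^ 2)) * g0 y ^ 2) / Real.tanh y := by
      field_simp
      ring
    rw [e]
    have h1 : 0 ≤ Nf b y - (1 - b ^ 2) * g0 y := by
      have : (1 - b ^ 2) * g0 y - Nf b y < 0 := hneg
      linarith
    have h2 : (1 - b ^ 2) * g0 y ≤ 1 := by nlinarith
    have h3 : 0 ≤ 1 + Real.tanh y ^ 2 - Nf b y - (1 - b ^ 2) * g0 y := by linarith
    have h4 : 0 ≤ 1 - (1 - b ^ 2) := by linarith
    positivity
  · -- the limit at `0`
    have hq : Tendsto (fun y => Real.tanh y ^ 2) (𝓝[>] 0) (𝓝 0) := by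
      have := tanh_tendsto.pow 2
      simpa using this
    refine squeeze_zero_norm' ?_ hq
    filter_upwards [self_mem_nhdsWithin] with y hy
    have hy0 : 0 < y := hy
    have hN := Nf_le_g0 hb0 hy0
    have hN0 := N_pos hb0 hb1 hy0
    have hq := g0_le hy0
    have hg0 := g0_nonneg hy0
    rw [Real.norm_eq_abs, abs_le]
    constructor
    · have : 0 ≤ (1 - b ^ 2) * g0 y := by positivity
      linarith
    · have : (1 - b ^ 2) * g0 y ≤ g0 y := by nlinarith
      linarith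

include hb0 in
/-- `b + 2 b exp (- 2 b x) ≤ T` -/
theorem T_ge_exp {x : ℝ} (hx : 0 < x) : b + 2 * b * Real.exp (-(2 * (b * x))) ≤ Tf b x := by
  have hy : 0 < b * x := mul_pos hb0 hx
  have hs := Real.sinh_pos_iff.2 hy
  set y := b * x with hydef
  have h : (1 + 2 * Real.exp (-(2 * y))) * Real.sinh y ≤ Real.cosh y := by
    rw [Real.sinh_eq, Real.cosh_eq]
    have e1 : Real.exp (-(2 * y)) * Real.exp y = Real.exp (-y) := by
      rw [← Real.exp_add]; congr 1; ring
    have h2 := Real.exp_pos (-(2 * y))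
    have h3 := Real.exp_pos (-y)
    have e2 : (1 + 2 * Real.exp (-(2 * y))) * ((Real.exp y - Real.exp (-y)) / 2) =
        (Real.exp y - Real.exp (-y)) / 2 + Real.exp (-(2 * y)) * Real.exp y -
          Real.exp (-(2 * y)) * Real.exp (-y) := by ring
    rw [e2, e1]
    have := mul_pos h2 h3
    linarith
  have h2 : 1 + 2 * Real.exp (-(2 * y)) ≤ Real.cosh y / Real.sinh y := by
    rwa [le_div_iff₀ hs]
  rw [Tf, ← hydef]
  have := mul_le_mul_of_nonneg_left h2 hb0.le
  linarith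

end

end SchM
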