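import Pool.Agent.LibSchM.M2
import Pool.Agent.LibSchM.M3

/-!
# The three term condition at the vertex
-/

open Set Filter Topology

namespace SchM

open SchK

/-- `h = sinh (b x) / (b sinh x cosh x)` -/
noncomputable def hf (b x : ℝ) : ℝ := Real.sinh (b * x) / (b * Real.sinh x * Real.cosh x)

theorem sinh_mul_le {b : ℝ} (hb0 : 0 ≤ b) (hb1 : b ≤ 1) {x : ℝ} (hx : 0 ≤ x) :
    Real.sinh (b * x) ≤ b * Real.sinh x := by
  have h : ∀ x, HasDerivAt (fun x => b * Real.sinh x - Real.sinh (b * x))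
      (b * Real.cosh x - b * Real.cosh (b * x)) x := fun x =>
    ((Real.hasDerivAt_sinh x).const_mul b).sub (hasDerivAt_sb b x)
  have := nonneg_of_deriv h (by simp) (fun y hy => by
    have h1 : Real.cosh (b * y) ≤ Real.cosh y := by
      rw [Real.cosh_le_cosh, abs_of_nonneg (mul_nonneg hb0 hy.le), abs_of_nonneg hy.le]
      nlinarith
    have := mul_le_mul_of_nonneg_left h1 hb0
    linarith) x hx
  linarith

theorem hf_pos {b x : ℝ} (hb0 : 0 < b) (hx : 0 < x) : 0 < hf b x := by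
  have h1 := Real.sinh_pos_iff.2 hx
  have h2 := Real.sinh_pos_iff.2 (mul_pos hb0 hx)
  have h3 := Real.cosh_pos x
  rw [hf]; positivity

theorem hf_sq_le {b x : ℝ} (hb0 : 0 < b) (hb1 : b ≤ 1) (hx : 0 < x) :
    hf b x ^ 2 ≤ 1 - Real.tanh x ^ 2 := by
  have h1 := Real.sinh_pos_iff.2 hx
  have h3 := Real.cosh_pos x
  have h4 := sinh_mul_le hb0.le hb1 hx.le
  have h5 : hf b x ≤ 1 / Real.cosh x := by
    rw [hf, div_le_div_iff₀ (by positivity) h3]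
    have := mul_le_mul_of_nonneg_right h4 h3.le
    linarith
  have h6 := pow_le_pow_left₀ (hf_pos hb0 hx).le h5 2
  rw [one_sub_tanh]
  rwa [div_pow, one_pow] at h6

theorem hf_sq_lt {b x : ℝ} (hb0 : 0 < b) (hb1 : b ≤ 1) (hx : 0 < x) : hf b x ^ 2 < 1 := by
  have h := hf_sq_le hb0 hb1 hx
  have := pow_pos (tanh_pos hx) 2
  linarith

/-- `N < tanh x` -/
theorem Nf_lt {b x : ℝ} (hb0 : 0 < b) (hx : 0 < x) : Nf b x < Real.tanh x := by
  have hN := Nf_le_g0 hb0 hx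
  have hq := g0_le hx
  have h1 := tanh_pos hx
  have h2 := tanh_lt_one' x
  nlinarith

/-- the elimination of the angle -/
theorem v1_C {r g h C m lam : ℝ} (hr : 0 < r) (hg0 : 0 ≤ g) (hgr : g < r)
    (hC0 : 0 ≤ C) (hC1 : C ≤ 1) (hk0 : h ^ 2 ≤ 1 - r ^ 2) (hh : 0 < h ^ 2)
    (hm : m ≤ lam / r) (hl : 0 ≤ lam)
    (hV : lam * ((3 - r) / 2 + (1 + r) * r / (r - g)) ≤ r) :
    m * (r * (1 - C ^ 2 + C ^ 2 * h ^ 2) / (C * (1 - h ^ 2) * (1 + C * r) +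
      r * (1 - C ^ 2 + C ^ 2 * h ^ 2)) +
      (1 + C * r) / (1 - C * h ^ 2 * g / (r * (1 - C ^ 2 + C ^ 2 * h ^ 2))) +
      (1 + C * r) / 2) ≤ 1 := by
  have hr2 : 0 < r ^ 2 := by positivity
  have hk : 0 < 1 - h ^ 2 := by linarith
  have hr1 : r < 1 := by nlinarith
  have hrg : 0 < r - g := by linarith
  have hC2 : C ^ 2 ≤ 1 := by nlinarith
  have hD : 0 < 1 - C ^ 2 + C ^ 2 * h ^ 2 := by
    have e : 1 - C ^ 2 + C ^ 2 * h ^ 2 = (1 - C ^ 2) * (1 - h ^ 2) + h ^ 2 := by ring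
    rw [e]
    have : 0 ≤ (1 - C ^ 2) * (1 - h ^ 2) := mul_nonneg (by linarith) hk.le
    linarith
  -- first term
  have e1 : C * (1 - h ^ 2) * (1 + C * r) + r * (1 - C ^ 2 + C ^ 2 * h ^ 2) =
      r + C * (1 - h ^ 2) := by ring
  have t1 : r * (1 - C ^ 2 + C ^ 2 * h ^ 2) / (C * (1 - h ^ 2) * (1 + C * r) +
      r * (1 - C ^ 2 + C ^ 2 * h ^ 2)) ≤ 1 - C * r := by
    rw [e1, div_le_iff₀ (by positivity)]
    have e2 : (1 - C * r) * (r + C * (1 - h ^ 2)) - r * (1 - C ^ 2 + C ^ 2 * h ^ 2) =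
        C * (1 - h ^ 2 - r ^ 2) := by ring
    have h3 : 0 ≤ C * (1 - h ^ 2 - r ^ 2) := mul_nonneg hC0 (by linarith)
    linarith
  -- second term
  have hphi : C * h ^ 2 ≤ 1 - C ^ 2 + C ^ 2 * h ^ 2 := by
    have e2 : 1 - C ^ 2 + C ^ 2 * h ^ 2 - C * h ^ 2 =
        (1 - C) * (1 + C * (1 - h ^ 2)) := by ring
    have h3 : 0 ≤ (1 - C) * (1 + C * (1 - h ^ 2)) := by
      have : 0 ≤ 1 - C := by linarith
      positivity
    linarith
  have hgphi : C * h ^ 2 * g / (r * (1 - C ^ 2 + C ^ 2 * h ^ 2)) ≤ g / r := by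
    rw [div_le_div_iff₀ (by positivity) hr]
    have := mul_le_mul_of_nonneg_left hphi (mul_nonneg hg0 hr.le)
    linarith
  have hgr' : 0 < 1 - g / r := by
    rw [sub_pos, div_lt_one hr]; exact hgr
  have t2 : (1 + C * r) / (1 - C * h ^ 2 * g / (r * (1 - C ^ 2 + C ^ 2 * h ^ 2))) ≤
      (1 + C * r) / (1 - g / r) := by
    apply div_le_div_of_nonneg_left (by positivity) hgr'
    linarith
  have e3 : (1 + C * r) / (1 - g / r) = (1 + C * r) * r / (r - g) := by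
    field_simp
  have hgr'' : 1 ≤ r / (r - g) := by
    rw [le_div_iff₀ hrg]; linarith
  have t3 : (1 - C * r) + (1 + C * r) * r / (r - g) + (1 + C * r) / 2 ≤
      (3 - r) / 2 + (1 + r) * r / (r - g) := by
    have e4 : (3 - r) / 2 + (1 + r) * r / (r - g) -
        ((1 - C * r) + (1 + C * r) * r / (r - g) + (1 + C * r) / 2) =
        r * (1 - C) * (r / (r - g) - 1 / 2) := by ring
    have h3 : 0 ≤ r * (1 - C) * (r / (r - g) - 1 / 2) :=
      mul_nonneg (mul_nonneg hr.le (by linarith)) (by linarith)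
    linarith
  have hsum : r * (1 - C ^ 2 + C ^ 2 * h ^ 2) / (C * (1 - h ^ 2) * (1 + C * r) +
      r * (1 - C ^ 2 + C ^ 2 * h ^ 2)) +
      (1 + C * r) / (1 - C * h ^ 2 * g / (r * (1 - C ^ 2 + C ^ 2 * h ^ 2))) +
      (1 + C * r) / 2 ≤ (3 - r) / 2 + (1 + r) * r / (r - g) := by
    rw [e3] at t2
    linarith
  have hpos : 0 ≤ r * (1 - C ^ 2 + C ^ 2 * h ^ 2) / (C * (1 - h ^ 2) * (1 + C * r) +
      r * (1 - C ^ 2 + C ^ 2 * h ^ 2)) +
      (1 + C * r) / (1 - C * h ^ 2 * g / (r * (1 - C ^ 2 + C ^ 2 * h ^ 2))) +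
      (1 + C * r) / 2 := by
    have h3 : 0 < 1 - C * h ^ 2 * g / (r * (1 - C ^ 2 + C ^ 2 * h ^ 2)) := by linarith
    positivity
  calc _ ≤ lam / r * (r * (1 - C ^ 2 + C ^ 2 * h ^ 2) / (C * (1 - h ^ 2) * (1 + C * r) +
      r * (1 - C ^ 2 + C ^ 2 * h ^ 2)) +
      (1 + C * r) / (1 - C * h ^ 2 * g / (r * (1 - C ^ 2 + C ^ 2 * h ^ 2))) +
      (1 + C * r) / 2) := mul_le_mul_of_nonneg_right hm hpos
    _ ≤ lam / r * ((3 - r) / 2 + (1 + r) * r / (r - g)) :=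
        mul_le_mul_of_nonneg_left hsum (by positivity)
    _ = lam * ((3 - r) / 2 + (1 + r) * r / (r - g)) / r := by ring
    _ ≤ 1 := by rw [div_le_one hr]; exact hV

/-- from the polynomial form (V2) to the condition on `lam` -/
theorem v1_of_v2 {r g B : ℝ} (hr : 0 < r) (hr1 : r < 1) (hg0 : 0 ≤ g) (hgr : g < r)
    (h2 : g * (15 * r - 3 * r ^ 2 + 6 * r * r ^ 2 + r ^ 2 * B * (3 - r)) ≤
      r ^ 2 * ((5 * r + r ^ 2) * B + 6 * r ^ 2)) :
    lamg (r ^ 2) B g * ((3 - r) / 2 + (1 + r) * r / (r - g)) ≤ r := by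
  have hrg : 0 < r - g := by linarith
  have hqg : 0 < r ^ 2 + g := by positivity
  rw [lamg]
  have e : (3 * g - r ^ 2 * B) / (3 * (r ^ 2 + g)) * ((3 - r) / 2 + (1 + r) * r / (r - g)) =
      (3 * g - r ^ 2 * B) * (5 * r + r ^ 2 - (3 - r) * g) / (6 * (r ^ 2 + g) * (r - g)) := by
    field_simp
    ring
  rw [e, div_le_iff₀ (by positivity)]
  have h3 : 0 ≤ 9 * (1 - r) * g ^ 2 := by
    have : 0 ≤ 1 - r := by linarith
    positivity
  nlinarith [h2, h3]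

/-- the polynomial inequality for `x ≤ 9 / 4` -/
theorem b_poly {x : ℝ} (hx : 0 ≤ x) (hx1 : x ≤ 9 / 4) :
    15 * (105 + 45 * x ^ 2 + x ^ 4) ^ 2 * (35 + x ^ 2) ≤ (7 * x + 5) * (105 + 10 * x ^ 2) ^ 3 := by
  have hy : 0 ≤ 9 - 4 * x := by linarith
  have e : 387420489 * ((7 * x + 5) * (105 + 10 * x ^ 2) ^ 3 -
      15 * (105 + 45 * x ^ 2 + x ^ 4) ^ 2 * (35 + x ^ 2)) =
      x * (8103375 * (9 - 4 * x) ^ 9 +
      260465625 * x ^ 1 * (9 - 4 * x) ^ 8 +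
      3854891250 * x ^ 2 * (9 - 4 * x) ^ 7 +
      33968190375 * x ^ 3 * (9 - 4 * x) ^ 6 +
      193566145500 * x ^ 4 * (9 - 4 * x) ^ 5 +
      727425038025 * x ^ 5 * (9 - 4 * x) ^ 4 +
      1759456679400 * x ^ 6 * (9 - 4 * x) ^ 3 +
      2519055411525 * x ^ 7 * (9 - 4 * x) ^ 2 +
      1687971263400 * x ^ 8 * (9 - 4 * x) ^ 1 +
      116544301065 * x ^ 9) := by ring
  have h : 0 ≤ 387420489 * ((7 * x + 5) * (105 + 10 * x ^ 2) ^ 3 -
      15 * (105 + 45 * x ^ 2 + x ^ 4) ^ 2 * (35 + x ^ 2)) := by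
    rw [e]; positivity
  linarith

/-- `15 x ≤ (7 x + 5) r ^ 3 + 15 r` for `r = tanh x`, `x ≤ 9 / 4` -/
theorem b_tanh {x : ℝ} (hx : 0 < x) (hx1 : x ≤ 9 / 4) :
    15 * x ≤ (7 * x + 5) * Real.tanh x ^ 3 + 15 * Real.tanh x := by
  have hp := pade_tanh hx.le
  have h := b_poly hx.le hx1
  set D := 105 + 45 * x ^ 2 + x ^ 4 with hD
  have hD0 : 0 < D := by rw [hD]; positivity
  set R := x * (105 + 10 * x ^ 2) / D with hR
  have hR0 : 0 ≤ R := by rw [hR]; positivity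
  have h1 : 15 * x ≤ (7 * x + 5) * R ^ 3 + 15 * R := by
    have e : (7 * x + 5) * R ^ 3 + 15 * R - 15 * x =
        x ^ 3 / D ^ 3 * ((7 * x + 5) * (105 + 10 * x ^ 2) ^ 3 - 15 * D ^ 2 * (35 + x ^ 2)) := by
      have e1 : R ^ 3 = x ^ 3 * (105 + 10 * x ^ 2) ^ 3 / D ^ 3 := by rw [hR]; ring
      have e2 : R - x = - (x ^ 3 / D ^ 3 * (D ^ 2 * (35 + x ^ 2))) := by
        rw [hR]; field_simp; rw [hD]; ring
      linear_combination (7 * x + 5) * e1 + 15 * e2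
    have h2 : 0 ≤ x ^ 3 / D ^ 3 * ((7 * x + 5) * (105 + 10 * x ^ 2) ^ 3 -
        15 * D ^ 2 * (35 + x ^ 2)) := mul_nonneg (by positivity) (by linarith)
    linarith
  have h2 := pow_le_pow_left₀ hR0 hp 3
  have h3 : 0 ≤ 7 * x + 5 := by positivity
  have h4 := mul_le_mul_of_nonneg_left h2 h3
  linarith

/-- (V2) for `x ≤ 9 / 4` -/
theorem v2_small {b x : ℝ} (hb0 : 0 < b) (hb1 : b < 1) (hx : 0 < x) (hx1 : x ≤ 9 / 4) :
    Nf b x * (15 * Real.tanh x - 3 * Real.tanh x ^ 2 + 6 * Real.tanh x * Real.tanh x ^ 2 +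
      Real.tanh x ^ 2 * (1 - b ^ 2) * (3 - Real.tanh x)) ≤
      Real.tanh x ^ 2 * ((5 * Real.tanh x + Real.tanh x ^ 2) * (1 - b ^ 2) +
        6 * Real.tanh x ^ 2) := by
  have hb2 : b ^ 2 < 1 := by nlinarith
  have hB0 : 0 < 1 - b ^ 2 := by linarith
  have hB1 : 1 - b ^ 2 ≤ 1 := by nlinarith
  have hN := Nf_le hb0 hb1 hx
  have hg0 := g0_nonneg hx
  have h := b_tanh hx hx1
  have hr := tanh_pos hx
  have hr1 := tanh_lt_one' x
  have hg : g0 x = 1 - Real.tanh x / x := rfl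
  set r := Real.tanh x with hrdef
  set B := 1 - b ^ 2 with hBdef
  set G := g0 x with hGdef
  have hL : 0 ≤ 15 * r - 3 * r ^ 2 + 6 * r * r ^ 2 + r ^ 2 * B * (3 - r) := by
    have h1 : 0 ≤ r ^ 2 * B * (3 - r) := mul_nonneg (by positivity) (by linarith)
    nlinarith
  have h1 : Nf b x * (15 * r - 3 * r ^ 2 + 6 * r * r ^ 2 + r ^ 2 * B * (3 - r)) ≤
      B * G * (15 * r - 3 * r ^ 2 + 6 * r * r ^ 2 + r ^ 2 * B * (3 - r)) :=
    mul_le_mul_of_nonneg_right hN hL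
  refine h1.trans ?_
  -- `B ≤ 1`
  have h2 : B * G * (15 * r - 3 * r ^ 2 + 6 * r * r ^ 2 + r ^ 2 * B * (3 - r)) ≤
      B * (G * (15 * r + 5 * r ^ 3)) := by
    have e : B * (G * (15 * r + 5 * r ^ 3)) -
        B * G * (15 * r - 3 * r ^ 2 + 6 * r * r ^ 2 + r ^ 2 * B * (3 - r)) =
        B * G * (r ^ 2 * (3 - r) * (1 - B)) := by ring
    have h3 : 0 ≤ B * G * (r ^ 2 * (3 - r) * (1 - B)) := by
      have h4 : 0 ≤ 3 - r := by linarith
      have h5 : 0 ≤ 1 - B := by linarith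
      positivity
    linarith
  have h3 : G * (15 * r + 5 * r ^ 3) ≤ r ^ 2 * (5 * r + 7 * r ^ 2) := by
    have h4 : G * (15 + 5 * r ^ 2) ≤ r ^ 2 * (5 + 7 * r) := by
      have e : (r ^ 2 * (5 + 7 * r) - G * (15 + 5 * r ^ 2)) * x =
          (7 * x + 5) * r ^ 3 + 15 * r - 15 * x := by
        rw [hg]; field_simp; ring
      have h5 : 0 ≤ (r ^ 2 * (5 + 7 * r) - G * (15 + 5 * r ^ 2)) * x := by
        rw [e]; linarith
      have h6 := nonneg_of_mul_nonneg_left h5 hx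
      linarith
    have h5 := mul_le_mul_of_nonneg_right h4 hr.le
    linarith
  have h4 := mul_le_mul_of_nonneg_left h3 hB0.le
  have h5 : B * (r ^ 2 * (5 * r + 7 * r ^ 2)) ≤ r ^ 2 * ((5 * r + r ^ 2) * B + 6 * r ^ 2) := by
    have e : r ^ 2 * ((5 * r + r ^ 2) * B + 6 * r ^ 2) - B * (r ^ 2 * (5 * r + 7 * r ^ 2)) =
        6 * r ^ 4 * (1 - B) := by ring
    have : 0 ≤ 6 * r ^ 4 * (1 - B) := mul_nonneg (by positivity) (by linarith)
    linarith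
  linarith

/-- `1 - tanh x ≤ 2 exp (- 2 x)` -/
theorem one_sub_tanh_le (x : ℝ) : 1 - Real.tanh x ≤ 2 * Real.exp (-(2 * x)) := by
  have hc := Real.cosh_pos x
  have e : 1 - Real.tanh x = Real.exp (-x) / Real.cosh x := by
    rw [Real.tanh_eq_sinh_div_cosh, eq_div_iff hc.ne', sub_mul, div_mul_cancel₀ _ hc.ne',
      Real.cosh_eq, Real.sinh_eq]
    ring
  rw [e, div_le_iff₀ hc, Real.cosh_eq]
  have e1 : Real.exp (-(2 * x)) * Real.exp x = Real.exp (-x) := by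
    rw [← Real.exp_add]; congr 1; ring
  have e2 : 2 * Real.exp (-(2 * x)) * ((Real.exp x + Real.exp (-x)) / 2) =
      Real.exp (-(2 * x)) * Real.exp x + Real.exp (-(2 * x)) * Real.exp (-x) := by ring
  rw [e2, e1]
  have := mul_pos (Real.exp_pos (-(2 * x))) (Real.exp_pos (-x))
  linarith

theorem v2_alg {b r δ ξ g : ℝ} (hb : 0 < b) (hb1 : b < 1) (hr : 0 < r) (hrδ : r = 1 - δ)
    (hδ0 : 0 < δ) (hδ1 : δ ≤ 1 / 40) (hξ1 : ξ ≤ 27 / 100 * b) (hg0 : 0 ≤ g)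
    (key : 42 * δ ≤ 2 * (10 * b - 4 - 2 * b ^ 2 - b ^ 3) + ξ * (20 - 2 * b ^ 2))
    (hG : g ≤ 1 - b - ξ + δ * (b + ξ)) :
    g * (15 * r - 3 * r ^ 2 + 6 * r * r ^ 2 + r ^ 2 * (1 - b ^ 2) * (3 - r)) ≤
      r ^ 2 * ((5 * r + r ^ 2) * (1 - b ^ 2) + 6 * r ^ 2) := by
  have hb2 : b ^ 2 < 1 := by nlinarith
  have hr1 : r < 1 := by linarith
  have hL : 15 * r - 3 * r ^ 2 + 6 * r * r ^ 2 + r ^ 2 * (1 - b ^ 2) * (3 - r) ≤
      r * (20 - 2 * b ^ 2) := by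
    have e1 : r * (20 - 2 * b ^ 2) -
        (15 * r - 3 * r ^ 2 + 6 * r * r ^ 2 + r ^ 2 * (1 - b ^ 2) * (3 - r)) =
        r * (δ * (9 - 6 * δ) + (1 - b ^ 2) * (δ + δ ^ 2)) := by rw [hrδ]; ring
    have h1 : 0 ≤ r * (δ * (9 - 6 * δ) + (1 - b ^ 2) * (δ + δ ^ 2)) := by
      have h2 : 0 ≤ 9 - 6 * δ := by linarith
      have h3 : 0 ≤ 1 - b ^ 2 := by linarith
      positivity
    linarith
  have hR : r * (12 - 6 * b ^ 2 - δ * (31 - 13 * b ^ 2)) ≤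
      r ^ 2 * ((5 * r + r ^ 2) * (1 - b ^ 2) + 6 * r ^ 2) := by
    have e1 : r ^ 2 * ((5 * r + r ^ 2) * (1 - b ^ 2) + 6 * r ^ 2) -
        r * (12 - 6 * b ^ 2 - δ * (31 - 13 * b ^ 2)) =
        r * (δ ^ 2 * (26 - 8 * b ^ 2 - δ * (7 - b ^ 2))) := by rw [hrδ]; ring
    have h0 : δ * (7 - b ^ 2) ≤ 1 * 7 :=
      mul_le_mul (by linarith) (by linarith [sq_nonneg b]) (by linarith) (by norm_num)
    have h1 : 0 ≤ 26 - 8 * b ^ 2 - δ * (7 - b ^ 2) := by linarith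
    have h2 : 0 ≤ r * (δ ^ 2 * (26 - 8 * b ^ 2 - δ * (7 - b ^ 2))) := by positivity
    linarith
  have hL0 : 0 ≤ 15 * r - 3 * r ^ 2 + 6 * r * r ^ 2 + r ^ 2 * (1 - b ^ 2) * (3 - r) := by
    have h1 : 0 ≤ r ^ 2 * (1 - b ^ 2) * (3 - r) := by
      have h2 : 0 ≤ 1 - b ^ 2 := by linarith
      have h3 : 0 ≤ 3 - r := by linarith
      positivity
    have h2 : 0 ≤ 6 * r * r ^ 2 := by positivity
    have h3 : r ^ 2 ≤ r := by nlinarith
    linarith
  have h1 : (1 - b - ξ + δ * (b + ξ)) * (20 - 2 * b ^ 2) ≤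
      12 - 6 * b ^ 2 - δ * (31 - 13 * b ^ 2) := by
    have e1 : 12 - 6 * b ^ 2 - δ * (31 - 13 * b ^ 2) -
        (1 - b - ξ + δ * (b + ξ)) * (20 - 2 * b ^ 2) =
        2 * (10 * b - 4 - 2 * b ^ 2 - b ^ 3) + ξ * (20 - 2 * b ^ 2) -
        δ * (31 - 13 * b ^ 2 + (b + ξ) * (20 - 2 * b ^ 2)) := by ring
    have h2 : 31 - 13 * b ^ 2 + (b + ξ) * (20 - 2 * b ^ 2) ≤ 42 := by
      have h3 : (b + ξ) * (20 - 2 * b ^ 2) ≤ 127 / 100 * b * (20 - 2 * b ^ 2) :=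
        mul_le_mul_of_nonneg_right (by linarith) (by linarith)
      have h4 : 0 ≤ (254 / 100 * b + 1701 / 100) * (b - 79 / 100) ^ 2 :=
        mul_nonneg (by linarith) (sq_nonneg _)
      have h5 : 42 - (31 - 13 * b ^ 2 + 127 / 100 * b * (20 - 2 * b ^ 2)) =
          (254 / 100 * b + 1701 / 100) * (b - 79 / 100) ^ 2 +
            (32 / 10000 * b ^ 2 - 109414 / 1000000 * b + 384059 / 1000000) := by ring
      have h6 : 0 ≤ 32 / 10000 * b ^ 2 - 109414 / 1000000 * b + 384059 / 1000000 := by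
        have := sq_nonneg b
        linarith
      linarith
    have h3 := mul_le_mul_of_nonneg_left h2 hδ0.le
    linarith
  calc _ ≤ (1 - b - ξ + δ * (b + ξ)) * (r * (20 - 2 * b ^ 2)) :=
        mul_le_mul hG hL hL0 (hg0.trans hG)
    _ = r * ((1 - b - ξ + δ * (b + ξ)) * (20 - 2 * b ^ 2)) := by ring
    _ ≤ r * (12 - 6 * b ^ 2 - δ * (31 - 13 * b ^ 2)) := mul_le_mul_of_nonneg_left h1 hr.le
    _ ≤ _ := hR

theorem exp_aux1 {x : ℝ} (hx1 : 9 / 4 ≤ x) : Real.exp (-(2 * x)) ≤ 1 / 87 := by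
  have h1 : (87 : ℝ) ≤ Real.exp (2 * x) := by
    have h2 : Real.exp (9 / 2) ≤ Real.exp (2 * x) := Real.exp_le_exp.2 (by linarith)
    have h3 : (87 : ℝ) ≤ Real.exp (9 / 2) := by
      have e1 : Real.exp (9 / 2) = Real.exp 1 ^ 4 * Real.exp (1 / 2) := by
        rw [← Real.exp_nat_mul, ← Real.exp_add]; norm_num
      have h4 : (2718 / 1000 : ℝ) ≤ Real.exp 1 := by
        have := Real.exp_one_gt_d9
        norm_num at this ⊢
        linarith
      have h5 : (16 / 10 : ℝ) ≤ Real.exp (1 / 2) := by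
        have h6 := Real.quadratic_le_exp_of_nonneg (show (0 : ℝ) ≤ 1 / 2 by norm_num)
        norm_num at h6 ⊢
        linarith
      have h6 : (2718 / 1000 : ℝ) ^ 4 ≤ Real.exp 1 ^ 4 := pow_le_pow_left₀ (by norm_num) h4 4
      rw [e1]
      calc (87 : ℝ) ≤ (2718 / 1000) ^ 4 * (16 / 10) := by norm_num
        _ ≤ Real.exp 1 ^ 4 * Real.exp (1 / 2) := mul_le_mul h6 h5 (by norm_num) (by positivity)
    linarith
  rw [Real.exp_neg, inv_eq_one_div]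
  exact one_div_le_one_div_of_le (by norm_num) h1

theorem exp_aux2 {y : ℝ} (hy : 81 / 40 ≤ y) : Real.exp (-y) ≤ 27 / 200 := by
  rw [Real.exp_neg, inv_eq_one_div, div_le_iff₀ (Real.exp_pos _)]
  have h1 : Real.exp 2 * Real.exp (1 / 40) ≤ Real.exp y := by
    rw [← Real.exp_add]; exact Real.exp_le_exp.2 (by linarith)
  have e1 : Real.exp 2 = Real.exp 1 ^ 2 := by rw [← Real.exp_nat_mul]; norm_num
  have h4 : (2718 / 1000 : ℝ) ≤ Real.exp 1 := by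
    have := Real.exp_one_gt_d9
    norm_num at this ⊢
    linarith
  have h6 : (2718 / 1000 : ℝ) ^ 2 ≤ Real.exp 1 ^ 2 := pow_le_pow_left₀ (by norm_num) h4 2
  have h7 : (41 / 40 : ℝ) ≤ Real.exp (1 / 40) := by
    have := Real.add_one_le_exp (1 / 40 : ℝ)
    linarith
  rw [e1] at h1
  have h8 : (2718 / 1000 : ℝ) ^ 2 * (41 / 40) ≤ Real.exp 1 ^ 2 * Real.exp (1 / 40) :=
    mul_le_mul h6 h7 (by norm_num) (by positivity)
  have h9 : (1 : ℝ) ≤ 27 / 200 * ((2718 / 1000) ^ 2 * (41 / 40)) := by norm_num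
  linarith

theorem exp_aux3 {y : ℝ} (hy : 2 ≤ y) : Real.exp (-y) ≤ 1 / 5 := by
  rw [Real.exp_neg, inv_eq_one_div]
  refine one_div_le_one_div_of_le (by norm_num) ?_
  have h5 : Real.exp 2 ≤ Real.exp y := Real.exp_le_exp.2 hy
  have h6 := Real.quadratic_le_exp_of_nonneg (show (0 : ℝ) ≤ 2 by norm_num)
  norm_num at h6
  linarith

theorem key_aux {b x : ℝ} (hb0 : 9 / 20 ≤ b) (hb1 : b < 1) (hx1 : 9 / 4 ≤ x) :
    84 * Real.exp (-(2 * x)) ≤ 2 * (10 * b - 4 - 2 * b ^ 2 - b ^ 3) +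
      2 * b * Real.exp (-(2 * (b * x))) * (20 - 2 * b ^ 2) := by
  have hb : 0 < b := by linarith
  have hb2 : b ^ 2 < 1 := by nlinarith
  have he := Real.exp_pos (-(2 * (b * x)))
  rcases le_or_gt (13 / 25) b with h | h
  · have h1 : (518 / 1000 : ℝ) ≤ 10 * b - 4 - 2 * b ^ 2 - b ^ 3 := by
      have e1 : 10 * b - 4 - 2 * b ^ 2 - b ^ 3 - 518 / 1000 =
          (b - 13 / 25) * (10 - 2 * (b + 13 / 25) - (b ^ 2 + 13 / 25 * b + 169 / 625)) +
            592 / 1000000 := by ring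
      have h2 : 0 ≤ 10 - 2 * (b + 13 / 25) - (b ^ 2 + 13 / 25 * b + 169 / 625) := by linarith
      have h3 := mul_nonneg (sub_nonneg.2 h) h2
      linarith
    have h2 : 0 ≤ 2 * b * Real.exp (-(2 * (b * x))) * (20 - 2 * b ^ 2) :=
      mul_nonneg (by positivity) (by linarith)
    have h3 := exp_aux1 hx1
    linarith
  · have h1 : 0 ≤ 10 * b - 4 - 2 * b ^ 2 - b ^ 3 := by
      have e1 : 10 * b - 4 - 2 * b ^ 2 - b ^ 3 =
          (b - 9 / 20) * (10 - 2 * (b + 9 / 20) - (b ^ 2 + 9 / 20 * b + 81 / 400)) +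
            3875 / 1000000 := by ring
      have h2 : 0 ≤ 10 - 2 * (b + 9 / 20) - (b ^ 2 + 9 / 20 * b + 81 / 400) := by linarith
      have h3 := mul_nonneg (sub_nonneg.2 hb0) h2
      linarith
    have h2 : 174 / 10 * Real.exp (-(26 / 25 * x)) ≤
        2 * b * Real.exp (-(2 * (b * x))) * (20 - 2 * b ^ 2) := by
      have h3 : Real.exp (-(26 / 25 * x)) ≤ Real.exp (-(2 * (b * x))) := by
        apply Real.exp_le_exp.2
        have : b * x ≤ 13 / 25 * x := mul_le_mul_of_nonneg_right h.le (by linarith)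
        linarith
      have h4 : (9 / 10 : ℝ) * Real.exp (-(26 / 25 * x)) ≤ 2 * b * Real.exp (-(2 * (b * x))) :=
        mul_le_mul (by linarith) h3 (Real.exp_pos _).le (by linarith)
      have h5 : (194 / 10 : ℝ) ≤ 20 - 2 * b ^ 2 := by nlinarith
      have h6 := mul_le_mul h4 h5 (by norm_num) (by positivity)
      have h7 := Real.exp_pos (-(26 / 25 * x))
      linarith
    have h3 : Real.exp (-(2 * x)) ≤ Real.exp (-(26 / 25 * x)) * (1 / 5) := by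
      have e1 : Real.exp (-(2 * x)) = Real.exp (-(26 / 25 * x)) * Real.exp (-(24 / 25 * x)) := by
        rw [← Real.exp_add]; congr 1; ring
      rw [e1]
      exact mul_le_mul_of_nonneg_left (exp_aux3 (by linarith)) (Real.exp_pos _).le
    have h7 := Real.exp_pos (-(26 / 25 * x))
    linarith

/-- (V2) for `x ≥ 9 / 4`, `b ≥ 9 / 20` -/
theorem v2_big {b x : ℝ} (hb0 : 9 / 20 ≤ b) (hb1 : b < 1) (hx1 : 9 / 4 ≤ x) :
    Nf b x * (15 * Real.tanh x - 3 * Real.tanh x ^ 2 + 6 * Real.tanh x * Real.tanh x ^ 2 +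
      Real.tanh x ^ 2 * (1 - b ^ 2) * (3 - Real.tanh x)) ≤
      Real.tanh x ^ 2 * ((5 * Real.tanh x + Real.tanh x ^ 2) * (1 - b ^ 2) +
        6 * Real.tanh x ^ 2) := by
  have hb : 0 < b := by linarith
  have hx : 0 < x := by linarith
  have hT := T_ge_exp hb hx
  have hr := tanh_pos hx
  have hr1 := tanh_lt_one' x
  have hd := one_sub_tanh_le x
  have hN := Nf_eq b x
  have hN0 := N_pos hb hb1 hx
  have hb2 : b ^ 2 < 1 := by nlinarith
  have he1 := exp_aux1 hx1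
  have hk := key_aux hb0 hb1 hx1
  have hξ2 : Real.exp (-(2 * (b * x))) ≤ 27 / 200 := by
    apply exp_aux2
    have : 9 / 20 * (9 / 4) ≤ b * x := mul_le_mul hb0 hx1 (by norm_num) hb.le
    linarith
  refine v2_alg (δ := 1 - Real.tanh x) (ξ := 2 * b * Real.exp (-(2 * (b * x)))) hb hb1 hr
    (by ring) (by linarith) (by linarith) ?_ hN0.le (by linarith) ?_
  · have := mul_le_mul_of_nonneg_left hξ2 hb.le
    linarith
  · have h1 := mul_le_mul_of_nonneg_left hT hr.le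
    rw [hN]
    linarith

end SchM
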